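import Pool.Agent.H472R3.Fib

/-!
Complex projective spaces, the Hopf fibration, and `S² × S²` is not homeomorphic to `ℂP²`.
-/

open Set Metric Module
open scoped unitInterval ComplexConjugate

set_option autoImplicit false
set_option linter.unusedSectionVars false

noncomputable section

namespace Pool.Agent.H472R3

/-- Two unit vectors of `ℂ^(n+1)` are equivalent if they differ by a complex factor (necessarily of
absolute value one). -/
def cpSetoid (n : ℕ) : Setoid (sphere (0 : EuclideanSpace ℂ (Fin (n + 1))) 1) where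
  r u v := ∃ c : ℂ, (v : EuclideanSpace ℂ (Fin (n + 1))) = c • (u : EuclideanSpace ℂ (Fin (n + 1)))
  iseqv := by
    refine ⟨fun u => ⟨1, by rw [one_smul]⟩, ?_, ?_⟩
    · rintro u v ⟨c, hc⟩
      have hc0 : c ≠ 0 := by
        rintro rfl
        rw [zero_smul] at hc
        have : ‖(v : EuclideanSpace ℂ (Fin (n + 1)))‖ = 1 := mem_sphere_zero_iff_norm.1 v.2
        rw [hc, norm_zero] at this
        norm_num at this
      exact ⟨c⁻¹, by rw [hc, smul_smul, inv_mul_cancel₀ hc0, one_smul]⟩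
    · rintro u v w ⟨c, hc⟩ ⟨d, hd⟩
      exact ⟨d * c, by rw [hd, hc, smul_smul]⟩

/-- The complex projective space `ℂPⁿ`: the quotient of the unit sphere of `ℂ^(n+1)` by the
multiplications with complex numbers of absolute value one, with the quotient topology. -/
def ComplexProjectiveSpace (n : ℕ) : Type := Quotient (cpSetoid n)

instance (n : ℕ) : TopologicalSpace (ComplexProjectiveSpace n) :=
  inferInstanceAs (TopologicalSpace (Quotient (cpSetoid n)))

/-- the projection to `ℂPⁿ` -/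
def cpMk (n : ℕ) : C(sphere (0 : EuclideanSpace ℂ (Fin (n + 1))) 1, ComplexProjectiveSpace n) where
  toFun := Quotient.mk (cpSetoid n)
  continuous_toFun := continuous_quotient_mk'

theorem norm_factor {V : Type*} [NormedAddCommGroup V] [InnerProductSpace ℂ V]
    {u v : sphere (0 : V) 1} {c : ℂ} (h : (v : V) = c • (u : V)) : ‖c‖ = 1 := by
  have h1 := congrArg norm h
  rw [norm_smul, LineFib.nrm_one, LineFib.nrm_one, mul_one] at h1
  exact h1.symm

theorem conj_mul_self {c : ℂ} (h : ‖c‖ = 1) : conj c * c = 1 := by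
  rw [Complex.conj_mul', h]
  norm_num

/-- the circle bundle over `ℂPⁿ` -/
def cpFib (n : ℕ) : LineFib (EuclideanSpace ℂ (Fin (n + 1))) (ComplexProjectiveSpace n) where
  π := cpMk n
  P := Quotient.lift (fun v : sphere (0 : EuclideanSpace ℂ (Fin (n + 1))) 1 =>
    (innerSL ℂ (v : EuclideanSpace ℂ (Fin (n + 1)))).smulRight
      (v : EuclideanSpace ℂ (Fin (n + 1)))) (by
    rintro u v ⟨c, hc⟩
    have h1 : conj c * c = 1 := conj_mul_self (norm_factor hc)
    ext1 w
    change inner ℂ (u : EuclideanSpace ℂ (Fin (n + 1))) w • (u : EuclideanSpace ℂ (Fin (n + 1))) =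
      inner ℂ (v : EuclideanSpace ℂ (Fin (n + 1))) w • (v : EuclideanSpace ℂ (Fin (n + 1)))
    rw [hc, inner_smul_left, smul_smul]
    congr 1
    calc inner ℂ (u : EuclideanSpace ℂ (Fin (n + 1))) w
        = (conj c * c) * inner ℂ (u : EuclideanSpace ℂ (Fin (n + 1))) w := by rw [h1, one_mul]
      _ = _ := by ring)
  hP := by
    refine Continuous.quotient_lift ?_ _
    have h1 := ContinuousLinearMap.continuous₂ (ContinuousLinearMap.smulRightL ℂ
      (EuclideanSpace ℂ (Fin (n + 1))) (EuclideanSpace ℂ (Fin (n + 1))))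
    have h2 : Continuous (fun v : sphere (0 : EuclideanSpace ℂ (Fin (n + 1))) 1 =>
        (innerSL ℂ (v : EuclideanSpace ℂ (Fin (n + 1))), (v : EuclideanSpace ℂ (Fin (n + 1))))) :=
      ((innerSL ℂ).continuous.comp continuous_subtype_val).prodMk continuous_subtype_val
    exact h1.comp h2
  surj := Quotient.mk_surjective
  P_π v w := by
    rfl
  inv u v c h := by
    exact (Quotient.sound (s := cpSetoid n) ⟨c, h⟩ : Quotient.mk (cpSetoid n) u = _).symm

/-- the two-sphere -/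
abbrev SS2 : Type := sphere (0 : EuclideanSpace ℝ (Fin (2 + 1))) 1

/-- the first Pauli matrix -/
def pauli (a b c d : ℂ) : EuclideanSpace ℂ (Fin 2) →L[ℂ] EuclideanSpace ℂ (Fin 2) :=
  LinearMap.toContinuousLinearMap
    { toFun := fun w => !₂[a * w 0 + b * w 1, c * w 0 + d * w 1]
      map_add' := fun v w => by
        ext i
        fin_cases i <;> simp <;> ring
      map_smul' := fun r w => by
        ext i
        fin_cases i <;> simp <;> ring }

theorem pauli_apply (a b c d : ℂ) (w : EuclideanSpace ℂ (Fin 2)) :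
    pauli a b c d w = !₂[a * w 0 + b * w 1, c * w 0 + d * w 1] := rfl

/-- the Hopf map in coordinates -/
def hopfFun (v : EuclideanSpace ℂ (Fin 2)) : EuclideanSpace ℝ (Fin (2 + 1)) :=
  !₂[2 * (conj (v 0) * v 1).re, 2 * (conj (v 0) * v 1).im, Complex.normSq (v 0) - Complex.normSq (v 1)]

theorem normSq_add (v : sphere (0 : EuclideanSpace ℂ (Fin 2)) 1) :
    Complex.normSq ((v : EuclideanSpace ℂ (Fin 2)) 0) +
      Complex.normSq ((v : EuclideanSpace ℂ (Fin 2)) 1) = 1 := by
  have h : ‖(v : EuclideanSpace ℂ (Fin 2))‖ = 1 := mem_sphere_zero_iff_norm.1 v.2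
  have h2 := EuclideanSpace.norm_sq_eq (v : EuclideanSpace ℂ (Fin 2))
  rw [h, Fin.sum_univ_two] at h2
  rw [Complex.normSq_eq_norm_sq, Complex.normSq_eq_norm_sq]
  linarith

theorem hopf0 (v : EuclideanSpace ℂ (Fin 2)) : hopfFun v 0 = 2 * (conj (v 0) * v 1).re := rfl

theorem hopf1 (v : EuclideanSpace ℂ (Fin 2)) : hopfFun v 1 = 2 * (conj (v 0) * v 1).im := rfl

theorem hopf2 (v : EuclideanSpace ℂ (Fin 2)) :
    hopfFun v 2 = Complex.normSq (v 0) - Complex.normSq (v 1) := rfl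

theorem hopfFun_norm (v : sphere (0 : EuclideanSpace ℂ (Fin 2)) 1) :
    hopfFun v ∈ sphere (0 : EuclideanSpace ℝ (Fin (2 + 1))) 1 := by
  have h1 := normSq_add v
  rw [mem_sphere_zero_iff_norm]
  have h2 := EuclideanSpace.real_norm_sq_eq (hopfFun (v : EuclideanSpace ℂ (Fin 2)))
  rw [Fin.sum_univ_three, hopf0, hopf1, hopf2] at h2
  have h3 : (2 * (conj ((v : EuclideanSpace ℂ (Fin 2)) 0) * (v : EuclideanSpace ℂ (Fin 2)) 1).re) ^ 2 +
      (2 * (conj ((v : EuclideanSpace ℂ (Fin 2)) 0) * (v : EuclideanSpace ℂ (Fin 2)) 1).im) ^ 2 +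
      (Complex.normSq ((v : EuclideanSpace ℂ (Fin 2)) 0) -
        Complex.normSq ((v : EuclideanSpace ℂ (Fin 2)) 1)) ^ 2 = 1 := by
    have e1 := Complex.normSq_apply
      (conj ((v : EuclideanSpace ℂ (Fin 2)) 0) * (v : EuclideanSpace ℂ (Fin 2)) 1)
    rw [Complex.normSq_mul, Complex.normSq_conj] at e1
    have e2 : (Complex.normSq ((v : EuclideanSpace ℂ (Fin 2)) 0) +
      Complex.normSq ((v : EuclideanSpace ℂ (Fin 2)) 1)) ^ 2 = 1 := by rw [h1]; norm_num
    linear_combination (-4) * e1 + e2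
  rw [h3] at h2
  have h4 : 0 ≤ ‖hopfFun (v : EuclideanSpace ℂ (Fin 2))‖ := norm_nonneg _
  nlinarith

/-- the projections -/
def hopfP (x : SS2) : EuclideanSpace ℂ (Fin 2) →L[ℂ] EuclideanSpace ℂ (Fin 2) :=
  (1 / 2 : ℂ) • (ContinuousLinearMap.id ℂ _ +
    (((x : EuclideanSpace ℝ (Fin (2 + 1))) 0 : ℝ) : ℂ) • pauli 0 1 1 0 +
    (((x : EuclideanSpace ℝ (Fin (2 + 1))) 1 : ℝ) : ℂ) • pauli 0 (-Complex.I) Complex.I 0 +
    (((x : EuclideanSpace ℝ (Fin (2 + 1))) 2 : ℝ) : ℂ) • pauli 1 0 0 (-1))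

theorem hopfP_apply (x : SS2) (w : EuclideanSpace ℂ (Fin 2)) :
    hopfP x w = !₂[(1 / 2 : ℂ) * ((1 + (((x : EuclideanSpace ℝ (Fin (2 + 1))) 2 : ℝ) : ℂ)) * w 0 +
      ((((x : EuclideanSpace ℝ (Fin (2 + 1))) 0 : ℝ) : ℂ) -
        (((x : EuclideanSpace ℝ (Fin (2 + 1))) 1 : ℝ) : ℂ) * Complex.I) * w 1),
      (1 / 2 : ℂ) * (((((x : EuclideanSpace ℝ (Fin (2 + 1))) 0 : ℝ) : ℂ) +
        (((x : EuclideanSpace ℝ (Fin (2 + 1))) 1 : ℝ) : ℂ) * Complex.I) * w 0 +
        (1 - (((x : EuclideanSpace ℝ (Fin (2 + 1))) 2 : ℝ) : ℂ)) * w 1)] := by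
  unfold hopfP
  ext i
  fin_cases i
  · simp [pauli_apply]
    ring
  · simp [pauli_apply]
    ring

/-- the Hopf fibration -/
def hopfFib : LineFib (EuclideanSpace ℂ (Fin 2)) SS2 where
  π v := ⟨hopfFun v, hopfFun_norm v⟩
  P := hopfP
  hP := by
    unfold hopfP
    have h : ∀ i : Fin (2 + 1), Continuous (fun x : SS2 =>
        ((((x : EuclideanSpace ℝ (Fin (2 + 1))) i : ℝ) : ℂ))) := by
      intro i
      have h' : Continuous (fun x : SS2 => (x : EuclideanSpace ℝ (Fin (2 + 1))) i) := by fun_prop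
      exact Complex.continuous_ofReal.comp h'
    have k0 := (h 0).smul (continuous_const (y := pauli 0 1 1 0))
    have k1 := (h 1).smul (continuous_const (y := pauli 0 (-Complex.I) Complex.I 0))
    have k2 := (h 2).smul (continuous_const (y := pauli 1 0 0 (-1)))
    have k3 : Continuous (fun _ : SS2 => ContinuousLinearMap.id ℂ (EuclideanSpace ℂ (Fin 2))) :=
      continuous_const
    exact (((k3.add k0).add k1).add k2).const_smul (1 / 2 : ℂ)
  surj := by
    intro x
    set a := (x : EuclideanSpace ℝ (Fin (2 + 1))) 0 with ha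
    set b := (x : EuclideanSpace ℝ (Fin (2 + 1))) 1 with hb
    set c := (x : EuclideanSpace ℝ (Fin (2 + 1))) 2 with hc
    have hx : ‖(x : EuclideanSpace ℝ (Fin (2 + 1)))‖ = 1 := mem_sphere_zero_iff_norm.1 x.2
    have h2 := EuclideanSpace.real_norm_sq_eq (x : EuclideanSpace ℝ (Fin (2 + 1)))
    rw [Fin.sum_univ_three, hx, ← ha, ← hb, ← hc] at h2
    have h1 : a ^ 2 + b ^ 2 + c ^ 2 = 1 := by linarith
    by_cases hc1 : c = -1
    · have ha0 : a = 0 := by rw [hc1] at h1; nlinarith [sq_nonneg a, sq_nonneg b]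
      have hb0 : b = 0 := by rw [hc1] at h1; nlinarith [sq_nonneg a, sq_nonneg b]
      refine ⟨⟨!₂[0, 1], ?_⟩, ?_⟩
      · rw [mem_sphere_zero_iff_norm, EuclideanSpace.norm_eq, Fin.sum_univ_two]
        simp
      · apply Subtype.ext
        ext i
        fin_cases i
        · change 2 * (conj (0 : ℂ) * 1).re = a
          rw [ha0]; simp
        · change 2 * (conj (0 : ℂ) * 1).im = b
          rw [hb0]; simp
        · change Complex.normSq 0 - Complex.normSq 1 = c
          rw [hc1]; simp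
    · have hcc : 0 < 1 + c := by
        have : c ^ 2 ≤ 1 := by nlinarith [sq_nonneg a, sq_nonneg b]
        have h5 : -1 ≤ c := by nlinarith
        rcases lt_or_eq_of_le h5 with h | h
        · linarith
        · exact absurd h.symm hc1
      set r := Real.sqrt ((1 + c) / 2) with hr
      have hr0 : 0 < r := Real.sqrt_pos.2 (by linarith)
      have hrr : r * r = (1 + c) / 2 := Real.mul_self_sqrt (by linarith)
      have hv1 : Complex.normSq ((r : ℝ) : ℂ) = (1 + c) / 2 := by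
        rw [Complex.normSq_ofReal, hrr]
      have hv2 : Complex.normSq (⟨a / (2 * r), b / (2 * r)⟩ : ℂ) = (1 - c) / 2 := by
        rw [Complex.normSq_mk]
        have e1 : a / (2 * r) * (a / (2 * r)) + b / (2 * r) * (b / (2 * r)) =
            (a ^ 2 + b ^ 2) / (4 * (r * r)) := by
          field_simp
          ring
        rw [e1, hrr, div_eq_iff (by linarith)]
        nlinarith
      refine ⟨⟨!₂[((r : ℝ) : ℂ), (⟨a / (2 * r), b / (2 * r)⟩ : ℂ)], ?_⟩, ?_⟩
      · rw [mem_sphere_zero_iff_norm, EuclideanSpace.norm_eq, Fin.sum_univ_two]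
        have e1 : ‖(!₂[((r : ℝ) : ℂ), (⟨a / (2 * r), b / (2 * r)⟩ : ℂ)] :
            EuclideanSpace ℂ (Fin 2)) 0‖ ^ 2 = (1 + c) / 2 := by
          rw [← Complex.normSq_eq_norm_sq]
          exact hv1
        have e2 : ‖(!₂[((r : ℝ) : ℂ), (⟨a / (2 * r), b / (2 * r)⟩ : ℂ)] :
            EuclideanSpace ℂ (Fin 2)) 1‖ ^ 2 = (1 - c) / 2 := by
          rw [← Complex.normSq_eq_norm_sq]
          exact hv2
        rw [e1, e2]
        have : (1 + c) / 2 + (1 - c) / 2 = 1 := by ring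
        rw [this, Real.sqrt_one]
      · have hre : 2 * (r * (a / (2 * r))) = a := by field_simp
        have hre' : 2 * (r * (b / (2 * r))) = b := by field_simp
        apply Subtype.ext
        ext i
        fin_cases i
        · change 2 * (conj ((r : ℝ) : ℂ) * (⟨a / (2 * r), b / (2 * r)⟩ : ℂ)).re = a
          rw [Complex.conj_ofReal, Complex.re_ofReal_mul]
          exact hre
        · change 2 * (conj ((r : ℝ) : ℂ) * (⟨a / (2 * r), b / (2 * r)⟩ : ℂ)).im = b
          rw [Complex.conj_ofReal, Complex.im_ofReal_mul]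
          exact hre'
        · change Complex.normSq ((r : ℝ) : ℂ) - Complex.normSq (⟨a / (2 * r), b / (2 * r)⟩ : ℂ) = c
          rw [hv1, hv2]
          ring
  P_π v w := by
    have h1 := normSq_add v
    rw [hopfP_apply]
    have hin : inner ℂ (v : EuclideanSpace ℂ (Fin 2)) w =
        conj ((v : EuclideanSpace ℂ (Fin 2)) 0) * w 0 +
        conj ((v : EuclideanSpace ℂ (Fin 2)) 1) * w 1 := by
      rw [PiLp.inner_apply, Fin.sum_univ_two]
      simp only [RCLike.inner_apply]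
      ring
    have n0 : ((Complex.normSq ((v : EuclideanSpace ℂ (Fin 2)) 0) : ℝ) : ℂ) =
        conj ((v : EuclideanSpace ℂ (Fin 2)) 0) * (v : EuclideanSpace ℂ (Fin 2)) 0 :=
      Complex.normSq_eq_conj_mul_self
    have n1 : ((Complex.normSq ((v : EuclideanSpace ℂ (Fin 2)) 1) : ℝ) : ℂ) =
        conj ((v : EuclideanSpace ℂ (Fin 2)) 1) * (v : EuclideanSpace ℂ (Fin 2)) 1 :=
      Complex.normSq_eq_conj_mul_self
    have h1' : conj ((v : EuclideanSpace ℂ (Fin 2)) 0) * (v : EuclideanSpace ℂ (Fin 2)) 0 +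
        conj ((v : EuclideanSpace ℂ (Fin 2)) 1) * (v : EuclideanSpace ℂ (Fin 2)) 1 = 1 := by
      rw [← n0, ← n1, ← Complex.ofReal_add, h1, Complex.ofReal_one]
    have hp : ∀ z : ℂ, ((2 * z.re : ℝ) : ℂ) + ((2 * z.im : ℝ) : ℂ) * Complex.I = 2 * z := by
      intro z
      apply Complex.ext <;> simp
    have hm : ∀ z : ℂ, ((2 * z.re : ℝ) : ℂ) - ((2 * z.im : ℝ) : ℂ) * Complex.I = 2 * conj z := by
      intro z
      apply Complex.ext <;> simp
    ext i
    fin_cases i
    · change (1 / 2 : ℂ) * ((1 + ((hopfFun (v : EuclideanSpace ℂ (Fin 2)) 2 : ℝ) : ℂ)) * w 0 +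
        (((hopfFun (v : EuclideanSpace ℂ (Fin 2)) 0 : ℝ) : ℂ) -
        ((hopfFun (v : EuclideanSpace ℂ (Fin 2)) 1 : ℝ) : ℂ) * Complex.I) * w 1) =
        inner ℂ (v : EuclideanSpace ℂ (Fin 2)) w * (v : EuclideanSpace ℂ (Fin 2)) 0
      rw [hopf0, hopf1, hopf2, hm, hin, Complex.ofReal_sub, n0, n1, map_mul, Complex.conj_conj]
      linear_combination ((-1 / 2 : ℂ) * w 0) * h1'
    · change (1 / 2 : ℂ) * ((((hopfFun (v : EuclideanSpace ℂ (Fin 2)) 0 : ℝ) : ℂ) +
        ((hopfFun (v : EuclideanSpace ℂ (Fin 2)) 1 : ℝ) : ℂ) * Complex.I) * w 0 +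
        (1 - ((hopfFun (v : EuclideanSpace ℂ (Fin 2)) 2 : ℝ) : ℂ)) * w 1) =
        inner ℂ (v : EuclideanSpace ℂ (Fin 2)) w * (v : EuclideanSpace ℂ (Fin 2)) 1
      rw [hopf0, hopf1, hopf2, hp, hin, Complex.ofReal_sub, n0, n1]
      linear_combination ((-1 / 2 : ℂ) * w 1) * h1'
  inv u v c h := by
    have hcc : conj c * c = 1 := conj_mul_self (norm_factor h)
    have hn : Complex.normSq c = 1 := by
      rw [Complex.normSq_eq_norm_sq, norm_factor h]
      norm_num
    have h0 : (v : EuclideanSpace ℂ (Fin 2)) 0 = c * (u : EuclideanSpace ℂ (Fin 2)) 0 := by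
      rw [h]; rfl
    have h1 : (v : EuclideanSpace ℂ (Fin 2)) 1 = c * (u : EuclideanSpace ℂ (Fin 2)) 1 := by
      rw [h]; rfl
    have e : conj ((v : EuclideanSpace ℂ (Fin 2)) 0) * (v : EuclideanSpace ℂ (Fin 2)) 1 =
        conj ((u : EuclideanSpace ℂ (Fin 2)) 0) * (u : EuclideanSpace ℂ (Fin 2)) 1 := by
      rw [h0, h1, map_mul]
      linear_combination (conj ((u : EuclideanSpace ℂ (Fin 2)) 0) *
        (u : EuclideanSpace ℂ (Fin 2)) 1) * hcc
    apply Subtype.ext
    ext i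
    fin_cases i
    · change hopfFun (v : EuclideanSpace ℂ (Fin 2)) 0 = hopfFun (u : EuclideanSpace ℂ (Fin 2)) 0
      rw [hopf0, hopf0, e]
    · change hopfFun (v : EuclideanSpace ℂ (Fin 2)) 1 = hopfFun (u : EuclideanSpace ℂ (Fin 2)) 1
      rw [hopf1, hopf1, e]
    · change hopfFun (v : EuclideanSpace ℂ (Fin 2)) 2 = hopfFun (u : EuclideanSpace ℂ (Fin 2)) 2
      rw [hopf2, hopf2, h0, h1, Complex.normSq_mul, Complex.normSq_mul, hn]
      ring

end Pool.Agent.H472R3
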