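import Pool.Agent.H472R3.Topo

/-!
Circle bundles described by rank one projections: homotopy lifting, and sections over spheres of
dimension at least three.
-/

open Set Metric Module
open scoped unitInterval

set_option autoImplicit false
set_option linter.unusedSectionVars false

noncomputable section

namespace Pool.Agent.H472R3

/-- normalisation -/
def nm {V : Type*} [NormedAddCommGroup V] [NormedSpace ℝ V] {Y : Type*} [TopologicalSpace Y]
    (f : C(Y, V)) (hf : ∀ y, f y ≠ 0) : C(Y, sphere (0 : V) 1) where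
  toFun y := ⟨‖f y‖⁻¹ • f y, by
    rw [mem_sphere_zero_iff_norm, norm_smul, norm_inv, norm_norm, inv_mul_cancel₀]
    exact norm_ne_zero_iff.mpr (hf y)⟩
  continuous_toFun := by
    refine Continuous.subtype_mk ?_ _
    refine Continuous.smul (Continuous.inv₀ (by fun_prop) fun y => norm_ne_zero_iff.mpr (hf y))
      (by fun_prop)

theorem nm_coe {V : Type*} [NormedAddCommGroup V] [NormedSpace ℝ V] {Y : Type*}
    [TopologicalSpace Y] (f : C(Y, V)) (hf : ∀ y, f y ≠ 0) (y : Y) :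
    (nm f hf y : V) = ‖f y‖⁻¹ • f y := rfl

/-- a circle bundle described by rank one projections -/
structure LineFib (V : Type*) [NormedAddCommGroup V] [InnerProductSpace ℂ V]
    (B : Type*) [TopologicalSpace B] where
  π : sphere (0 : V) 1 → B
  P : B → V →L[ℂ] V
  hP : Continuous P
  surj : Function.Surjective π
  P_π : ∀ (v : sphere (0 : V) 1) (w : V), P (π v) w = inner ℂ (v : V) w • (v : V)
  inv : ∀ (u v : sphere (0 : V) 1) (c : ℂ), (v : V) = c • (u : V) → π v = π u

namespace LineFib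

variable {V : Type*} [NormedAddCommGroup V] [InnerProductSpace ℂ V]
  {B : Type*} [TopologicalSpace B] (L : LineFib V B)

theorem nrm_one (v : sphere (0 : V) 1) : ‖(v : V)‖ = 1 := mem_sphere_zero_iff_norm.1 v.2

theorem inner_one (v : sphere (0 : V) 1) : inner ℂ (v : V) (v : V) = (1 : ℂ) := by
  rw [inner_self_eq_norm_sq_to_K, nrm_one]
  simp

theorem P_self (v : sphere (0 : V) 1) : L.P (L.π v) v = v := by
  rw [L.P_π, inner_one, one_smul]

theorem eq_of_P {u : sphere (0 : V) 1} {l : B} (h : L.P l u = u) : L.π u = l := by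
  obtain ⟨w, rfl⟩ := L.surj l
  rw [L.P_π] at h
  exact L.inv w u _ h.symm

theorem PP (l : B) (w : V) : L.P l (L.P l w) = L.P l w := by
  obtain ⟨v, rfl⟩ := L.surj l
  rw [L.P_π v w, map_smul, L.P_self]

theorem P_real (l : B) (r : ℝ) (w : V) : L.P l (r • w) = r • L.P l w := by
  rw [← Complex.coe_smul r w, map_smul, Complex.coe_smul]

/-- the time change -/
def cl (r : ℝ) (hr : 0 ≤ r) : C(I, I) where
  toFun t := ⟨min (t : ℝ) r, le_min t.2.1 hr, (min_le_left _ _).trans t.2.2⟩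
  continuous_toFun := by
    refine Continuous.subtype_mk ?_ _
    fun_prop

theorem cl_coe (r : ℝ) (hr : 0 ≤ r) (t : I) : ((cl r hr t : I) : ℝ) = min (t : ℝ) r := rfl

/-- homotopy lifting -/
theorem lift {X : Type*} [TopologicalSpace X] [CompactSpace X] (b : C(X × I, B))
    (s0 : C(X, sphere (0 : V) 1)) (h0 : ∀ x, L.π (s0 x) = b (x, 0)) :
    ∃ s : C(X × I, sphere (0 : V) 1), (∀ q, L.π (s q) = b q) ∧ ∀ x, s (x, 0) = s0 x := by
  let G : C(I, C(X, V →L[ℂ] V)) := ContinuousMap.curry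
    ⟨fun q : I × X => L.P (b (q.2, q.1)), L.hP.comp (b.continuous.comp continuous_swap)⟩
  have hG : UniformContinuous G := CompactSpace.uniformContinuous_of_continuous G.continuous
  have hG' : ∀ ε > 0, ∃ δ > 0, ∀ ⦃t t' : I⦄, dist t t' < δ → dist (G t) (G t') < ε :=
    (Metric.uniformContinuous_iff (f := (G : I → C(X, V →L[ℂ] V)))).1 (by exact hG)
  obtain ⟨δ, hδ, hG⟩ := hG' 1 one_pos
  obtain ⟨N, hN⟩ := exists_nat_one_div_lt hδ
  have hN0 : (0 : ℝ) < (N : ℝ) + 1 := by positivity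
  have hclose : ∀ (x : X) (t t' : I), |(t : ℝ) - t'| ≤ 1 / ((N : ℝ) + 1) →
      ‖L.P (b (x, t)) - L.P (b (x, t'))‖ < 1 := by
    intro x t t' htt
    have h1 : dist (G t) (G t') < 1 := hG (by
      rw [Subtype.dist_eq, Real.dist_eq]
      exact lt_of_le_of_lt htt hN)
    have h2 := lt_of_le_of_lt (ContinuousMap.dist_apply_le_dist (f := G t) (g := G t') x) h1
    rw [dist_eq_norm] at h2
    exact h2
  have hk0 : ∀ k : ℕ, (0 : ℝ) ≤ (k : ℝ) / ((N : ℝ) + 1) := fun k => by positivity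
  have key : ∀ k : ℕ, ∃ s : C(X × I, sphere (0 : V) 1),
      (∀ x t, L.π (s (x, t)) = b (x, cl ((k : ℝ) / ((N : ℝ) + 1)) (hk0 k) t)) ∧
      ∀ x, s (x, 0) = s0 x := by
    intro k
    induction k with
    | zero =>
      refine ⟨⟨fun q => s0 q.1, by fun_prop⟩, fun x t => ?_, fun x => rfl⟩
      change L.π (s0 x) = _
      rw [h0]
      congr 2
      apply Subtype.ext
      rw [cl_coe]
      simp [t.2.1]
    | succ k ih =>
      obtain ⟨s, hs, hs0⟩ := ih
      have hr := hk0 (k + 1)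
      let f : C(X × I, V) :=
        ⟨fun q => L.P (b (q.1, cl (((k + 1 : ℕ) : ℝ) / ((N : ℝ) + 1)) (hk0 (k + 1)) q.2)) (s q), by
          have h1 : Continuous (fun q : X × I =>
              L.P (b (q.1, cl (((k + 1 : ℕ) : ℝ) / ((N : ℝ) + 1)) (hk0 (k + 1)) q.2))) :=
            L.hP.comp (b.continuous.comp (continuous_fst.prodMk
              ((cl _ _).continuous.comp continuous_snd)))
          exact h1.clm_apply (continuous_subtype_val.comp s.continuous)⟩
      have hf : ∀ q, f q ≠ 0 := by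
        rintro ⟨x, t⟩ hq
        have e1 : L.P (b (x, cl ((k : ℝ) / ((N : ℝ) + 1)) (hk0 k) t)) (s (x, t)) = s (x, t) := by
          rw [← hs]
          exact L.P_self _
        have e2 : (L.P (b (x, cl (((k + 1 : ℕ) : ℝ) / ((N : ℝ) + 1)) (hk0 (k + 1)) t)) -
            L.P (b (x, cl ((k : ℝ) / ((N : ℝ) + 1)) (hk0 k) t))) (s (x, t)) = - (s (x, t) : V) := by
          rw [sub_apply, e1]
          have : L.P (b (x, cl (((k + 1 : ℕ) : ℝ) / ((N : ℝ) + 1)) (hk0 (k + 1)) t)) (s (x, t)) = 0 :=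
            hq
          rw [this, zero_sub]
        have e3 := (L.P (b (x, cl (((k + 1 : ℕ) : ℝ) / ((N : ℝ) + 1)) (hk0 (k + 1)) t)) -
            L.P (b (x, cl ((k : ℝ) / ((N : ℝ) + 1)) (hk0 k) t))).le_opNorm (s (x, t) : V)
        rw [e2, norm_neg, nrm_one, mul_one] at e3
        have e4 := hclose x (cl (((k + 1 : ℕ) : ℝ) / ((N : ℝ) + 1)) (hk0 (k + 1)) t)
          (cl ((k : ℝ) / ((N : ℝ) + 1)) (hk0 k) t) (by
            rw [cl_coe, cl_coe]
            have hb : ((k + 1 : ℕ) : ℝ) / ((N : ℝ) + 1) =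
                (k : ℝ) / ((N : ℝ) + 1) + 1 / ((N : ℝ) + 1) := by
              push_cast
              ring
            rw [hb]
            have h1 : 0 ≤ 1 / ((N : ℝ) + 1) := by positivity
            rw [abs_le]
            constructor
            · have := min_le_min_left (t : ℝ)
                (by linarith : (k : ℝ) / ((N : ℝ) + 1) ≤ (k : ℝ) / ((N : ℝ) + 1) + 1 / ((N : ℝ) + 1))
              linarith
            · rcases le_total (t : ℝ) ((k : ℝ) / ((N : ℝ) + 1)) with h | h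
              · rw [min_eq_left h, min_eq_left (by linarith)]
                linarith
              · rw [min_eq_right h]
                have := min_le_right (t : ℝ) ((k : ℝ) / ((N : ℝ) + 1) + 1 / ((N : ℝ) + 1))
                linarith)
        linarith
      refine ⟨nm f hf, fun x t => ?_, fun x => ?_⟩
      · apply L.eq_of_P
        rw [nm_coe, L.P_real]
        congr 1
        exact L.PP _ _
      · apply Subtype.ext
        rw [nm_coe]
        have e1 : f (x, 0) = s0 x := by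
          change L.P (b (x, cl (((k + 1 : ℕ) : ℝ) / ((N : ℝ) + 1)) (hk0 (k + 1)) 0)) (s (x, 0)) = _
          have : cl (((k + 1 : ℕ) : ℝ) / ((N : ℝ) + 1)) (hk0 (k + 1)) 0 = 0 := by
            apply Subtype.ext
            rw [cl_coe]
            simp only [Set.Icc.coe_zero]
            exact min_eq_left hr
          rw [this, hs0, ← h0]
          exact L.P_self _
        rw [e1, nrm_one, inv_one, one_smul]
  obtain ⟨s, hs, hs0⟩ := key (N + 1)
  refine ⟨s, ?_, hs0⟩
  rintro ⟨x, t⟩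
  rw [hs]
  congr 2
  apply Subtype.ext
  rw [cl_coe]
  have : ((N + 1 : ℕ) : ℝ) / ((N : ℝ) + 1) = 1 := by
    push_cast
    exact div_self hN0.ne'
  rw [this]
  exact min_eq_left t.2.2

/-- sections over compact contractible spaces -/
theorem lift_contractible {X : Type*} [TopologicalSpace X] [CompactSpace X] [ContractibleSpace X]
    (b : C(X, B)) : ∃ s : C(X, sphere (0 : V) 1), ∀ x, L.π (s x) = b x := by
  obtain ⟨x0, ⟨H⟩⟩ := id_nullhomotopic X
  obtain ⟨v0, hv0⟩ := L.surj (b x0)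
  obtain ⟨s, hs, -⟩ := L.lift (X := X)
    ⟨fun q : X × I => b (H.symm (q.2, q.1)), by fun_prop⟩ (ContinuousMap.const X v0) (by
      intro x
      change L.π v0 = b (H.symm (0, x))
      rw [H.symm.apply_zero, hv0]
      rfl)
  refine ⟨⟨fun x => s (x, 1), by fun_prop⟩, fun x => ?_⟩
  change L.π (s (x, 1)) = b x
  rw [hs]
  change b (H.symm (1, x)) = b x
  rw [H.symm.apply_one]
  rfl

end LineFib

/-- lifting maps to the circle -/
theorem lift_circle {X : Type*} [TopologicalSpace X] [SimplyConnectedSpace X]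
    [LocallyPathConnectedSpace X] (c : C(X, Circle)) :
    ∃ θ : C(X, ℝ), ∀ x, Circle.exp (θ x) = c x := by
  obtain ⟨a0⟩ : Nonempty X := inferInstance
  obtain ⟨F, ⟨-, hF⟩, -⟩ := Circle.isCoveringMap_exp.existsUnique_continuousMap_lifts c a0
    (Complex.arg (c a0)) (Circle.exp_arg _)
  exact ⟨F, fun x => congrFun hF x⟩

section hemi

variable {E : Type*} [NormedAddCommGroup E] [InnerProductSpace ℝ E]

/-- a closed hemisphere -/
def hemi (e : E) : Set (sphere (0 : E) 1) := {v | 0 ≤ inner ℝ e (v : E)}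

theorem isClosed_hemi (e : E) : IsClosed (hemi e) :=
  isClosed_le continuous_const (by fun_prop)

theorem hemi_contractible {e : E} (he : ‖e‖ = 1) : ContractibleSpace (hemi e) := by
  have hee : inner ℝ e e = (1 : ℝ) := by
    rw [real_inner_self_eq_norm_sq, he]; norm_num
  rw [contractible_iff_id_nullhomotopic]
  let e0 : hemi e := ⟨⟨e, by simp [he]⟩, by change 0 ≤ inner ℝ e e; rw [hee]; norm_num⟩
  let z : C(I × hemi e, E) :=
    ⟨fun q => (1 - (q.1 : ℝ)) • ((q.2 : sphere (0 : E) 1) : E) + (q.1 : ℝ) • e, by fun_prop⟩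
  have hzi : ∀ q, inner ℝ e (z q) =
      (1 - (q.1 : ℝ)) * inner ℝ e ((q.2 : sphere (0 : E) 1) : E) + (q.1 : ℝ) := by
    intro q
    change inner ℝ e ((1 - (q.1 : ℝ)) • ((q.2 : sphere (0 : E) 1) : E) + (q.1 : ℝ) • e) = _
    rw [inner_add_right, inner_smul_right, inner_smul_right, hee]
    ring
  have hz : ∀ q, z q ≠ 0 := by
    rintro ⟨t, v⟩ h
    have h1 := hzi (t, v)
    rw [h, inner_zero_right] at h1
    have h2 : 0 ≤ inner ℝ e ((v : sphere (0 : E) 1) : E) := v.2
    have h3 : (0 : ℝ) ≤ t := t.2.1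
    have h4 : (0 : ℝ) ≤ 1 - t := by linarith [t.2.2]
    simp only at h1
    have h5 : (t : ℝ) = 0 := by nlinarith [mul_nonneg h4 h2]
    have h6 : z (t, v) = ((v : sphere (0 : E) 1) : E) := by
      change (1 - (t : ℝ)) • ((v : sphere (0 : E) 1) : E) + (t : ℝ) • e = _
      rw [h5]
      simp
    rw [h6] at h
    have h7 : ‖((v : sphere (0 : E) 1) : E)‖ = 1 := mem_sphere_zero_iff_norm.1 (v : sphere (0 : E) 1).2
    rw [h, norm_zero] at h7
    norm_num at h7
  have hmem : ∀ q, nm z hz q ∈ hemi e := by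
    intro q
    change 0 ≤ inner ℝ e (nm z hz q : E)
    rw [nm_coe, inner_smul_right, hzi]
    have h2 : 0 ≤ inner ℝ e ((q.2 : sphere (0 : E) 1) : E) := q.2.2
    have h3 : (0 : ℝ) ≤ q.1 := q.1.2.1
    have h4 : (0 : ℝ) ≤ 1 - q.1 := by linarith [q.1.2.2]
    positivity
  refine ⟨e0, ⟨⟨⟨fun q => ⟨nm z hz q, hmem q⟩, by fun_prop⟩, fun v => ?_, fun v => ?_⟩⟩⟩
  · apply Subtype.ext
    apply Subtype.ext
    change ‖z (0, v)‖⁻¹ • z (0, v) = ((v : sphere (0 : E) 1) : E)
    have h6 : z (0, v) = ((v : sphere (0 : E) 1) : E) := by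
      change (1 - ((0 : I) : ℝ)) • ((v : sphere (0 : E) 1) : E) + ((0 : I) : ℝ) • e = _
      simp
    rw [h6, mem_sphere_zero_iff_norm.1 (v : sphere (0 : E) 1).2]
    simp
  · apply Subtype.ext
    apply Subtype.ext
    change ‖z (1, v)‖⁻¹ • z (1, v) = e
    have h6 : z (1, v) = e := by
      change (1 - ((1 : I) : ℝ)) • ((v : sphere (0 : E) 1) : E) + ((1 : I) : ℝ) • e = _
      simp
    rw [h6, he]
    simp

variable {V : Type*} [NormedAddCommGroup V] [InnerProductSpace ℂ V]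
  {B : Type*} [TopologicalSpace B]

/-- sections over spheres of dimension at least three -/
theorem LineFib.lift_sphere (L : LineFib V B) [FiniteDimensional ℝ E] (hE : 3 < finrank ℝ E)
    (b : C(sphere (0 : E) 1, B)) :
    ∃ s : C(sphere (0 : E) 1, sphere (0 : V) 1), ∀ x, L.π (s x) = b x := by
  have hnt : Nontrivial E := Module.nontrivial_of_finrank_pos (R := ℝ) (by omega)
  obtain ⟨e', he'⟩ := (NormedSpace.sphere_nonempty (x := (0 : E)) (r := 1)).2 zero_le_one
  obtain ⟨e, he⟩ : ∃ e : E, ‖e‖ = 1 := ⟨e', by simpa using he'⟩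
  clear he' e'
  have he0 : e ≠ 0 := by
    rintro rfl
    simp at he
  have hW : finrank ℝ (ℝ ∙ e)ᗮ + 1 = finrank ℝ E := by
    have h1 := Submodule.finrank_add_finrank_orthogonal (ℝ ∙ e)
    rw [finrank_span_singleton he0] at h1
    omega
  have hsc : SimplyConnectedSpace (sphere (0 : (ℝ ∙ e)ᗮ) 1) :=
    Pool.Agent.Helper206.BoxS.Sph.simplyConnected_sphere (by omega)
  have hfact : Fact (finrank ℝ (ℝ ∙ e)ᗮ = (finrank ℝ (ℝ ∙ e)ᗮ - 1) + 1) := ⟨by omega⟩
  have hlp : LocallyPathConnectedSpace (sphere (0 : (ℝ ∙ e)ᗮ) 1) :=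
    ChartedSpace.locallyPathConnectedSpace
      (EuclideanSpace ℝ (Fin (finrank ℝ (ℝ ∙ e)ᗮ - 1))) _
  have hc1 : ContractibleSpace (hemi e) := hemi_contractible he
  have hc2 : ContractibleSpace (hemi (-e)) := hemi_contractible (by rw [norm_neg, he])
  have hk1 : CompactSpace (hemi e) := isCompact_iff_compactSpace.1 (isClosed_hemi e).isCompact
  have hk2 : CompactSpace (hemi (-e)) :=
    isCompact_iff_compactSpace.1 (isClosed_hemi (-e)).isCompact
  obtain ⟨s1, hs1⟩ := L.lift_contractible (b.comp ⟨(Subtype.val : hemi e → _), continuous_subtype_val⟩)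
  obtain ⟨s2, hs2⟩ := L.lift_contractible
    (b.comp ⟨(Subtype.val : hemi (-e) → _), continuous_subtype_val⟩)
  have horth : ∀ w : (ℝ ∙ e)ᗮ, inner ℝ e (w : E) = 0 := fun w =>
    Submodule.mem_orthogonal_singleton_iff_inner_right.1 w.2
  have hsph : ∀ w : sphere (0 : (ℝ ∙ e)ᗮ) 1, ((w : (ℝ ∙ e)ᗮ) : E) ∈ sphere (0 : E) 1 := by
    intro w
    have : ‖(w : (ℝ ∙ e)ᗮ)‖ = 1 := mem_sphere_zero_iff_norm.1 w.2
    rw [mem_sphere_zero_iff_norm]
    exact this
  let j1 : C(sphere (0 : (ℝ ∙ e)ᗮ) 1, hemi e) :=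
    ⟨fun w => ⟨⟨((w : (ℝ ∙ e)ᗮ) : E), hsph w⟩, by
      change 0 ≤ inner ℝ e ((w : (ℝ ∙ e)ᗮ) : E)
      rw [horth]⟩, by fun_prop⟩
  let j2 : C(sphere (0 : (ℝ ∙ e)ᗮ) 1, hemi (-e)) :=
    ⟨fun w => ⟨⟨((w : (ℝ ∙ e)ᗮ) : E), hsph w⟩, by
      change 0 ≤ inner ℝ (-e) ((w : (ℝ ∙ e)ᗮ) : E)
      rw [inner_neg_left, horth, neg_zero]⟩, by fun_prop⟩
  have hj12 : ∀ w, ((j1 w : hemi e) : sphere (0 : E) 1) = ((j2 w : hemi (-e)) : sphere (0 : E) 1) :=
    fun w => rfl
  have hrel : ∀ w, (s1 (j1 w) : V) = inner ℂ (s2 (j2 w) : V) (s1 (j1 w) : V) • (s2 (j2 w) : V) := by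
    intro w
    rw [← L.P_π, hs2]
    have h1 : (b.comp ⟨(Subtype.val : hemi (-e) → _), continuous_subtype_val⟩) (j2 w) =
        L.π (s1 (j1 w)) := by
      rw [hs1]
      rfl
    rw [h1, L.P_self]
  have hn : ∀ w, ‖(inner ℂ (s2 (j2 w) : V) (s1 (j1 w) : V) : ℂ)‖ = 1 := by
    intro w
    have h1 := congrArg norm (hrel w)
    rw [norm_smul, LineFib.nrm_one, LineFib.nrm_one, mul_one] at h1
    exact h1.symm
  let c : C(sphere (0 : (ℝ ∙ e)ᗮ) 1, Circle) :=
    ⟨fun w => ⟨inner ℂ (s2 (j2 w) : V) (s1 (j1 w) : V), mem_sphere_zero_iff_norm.2 (hn w)⟩, by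
      refine Continuous.subtype_mk ?_ _
      fun_prop⟩
  obtain ⟨θ, hθ⟩ := lift_circle c
  have hemb : Topology.IsClosedEmbedding j2 := by
    refine j2.continuous.isClosedEmbedding ?_
    intro w w' h
    have h1 := congrArg (fun x : hemi (-e) => ((x : sphere (0 : E) 1) : E)) h
    exact Subtype.ext (Subtype.ext h1)
  obtain ⟨Θ, hΘ⟩ := θ.exists_extension' hemb
  classical
  have hdich : ∀ v : sphere (0 : E) 1, ¬ (v ∈ hemi e) → v ∈ hemi (-e) := by
    intro v hv
    change 0 ≤ inner ℝ (-e) (v : E)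
    rw [inner_neg_left]
    have : ¬ (0 ≤ inner ℝ e (v : E)) := hv
    linarith
  let f : sphere (0 : E) 1 → V := fun v => if h : v ∈ hemi e then (s1 ⟨v, h⟩ : V) else
    ((Circle.exp (Θ ⟨v, hdich v h⟩) : Circle) : ℂ) • (s2 ⟨v, hdich v h⟩ : V)
  have hf1 : ∀ v : hemi e, f v = s1 v := fun v => dif_pos v.2
  have hf2 : ∀ v : hemi (-e), f v = ((Circle.exp (Θ v) : Circle) : ℂ) • (s2 v : V) := by
    rintro ⟨v, hv⟩
    by_cases h : v ∈ hemi e
    · have h1 : f v = s1 ⟨v, h⟩ := dif_pos h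
      have h2 : inner ℝ e (v : E) = 0 := by
        have a1 : 0 ≤ inner ℝ e (v : E) := h
        have a2 : 0 ≤ inner ℝ (-e) (v : E) := hv
        rw [inner_neg_left] at a2
        linarith
      have h3 : (v : E) ∈ (ℝ ∙ e)ᗮ := Submodule.mem_orthogonal_singleton_iff_inner_right.2 h2
      let w : sphere (0 : (ℝ ∙ e)ᗮ) 1 := ⟨⟨(v : E), h3⟩, by
        have : ‖(v : E)‖ = 1 := mem_sphere_zero_iff_norm.1 v.2
        rw [mem_sphere_zero_iff_norm]
        exact this⟩
      have e1 : (⟨v, h⟩ : hemi e) = j1 w := rfl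
      have e2 : (⟨v, hv⟩ : hemi (-e)) = j2 w := rfl
      change f v = _
      rw [h1, e1, e2, hrel w]
      have e3 : Θ (j2 w) = θ w := congrFun hΘ w
      rw [e3, hθ w]
      rfl
    · exact dif_neg h
  have hfc : Continuous f := by
    rw [← continuousOn_univ]
    have hun : (Set.univ : Set (sphere (0 : E) 1)) = hemi e ∪ hemi (-e) := by
      ext v
      simp only [Set.mem_univ, Set.mem_union, true_iff]
      by_cases h : v ∈ hemi e
      · exact Or.inl h
      · exact Or.inr (hdich v h)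
    rw [hun]
    refine ContinuousOn.union_of_isClosed ?_ ?_ (isClosed_hemi e) (isClosed_hemi (-e))
    · rw [continuousOn_iff_continuous_domRestrict]
      have : (hemi e).domRestrict f = fun v : hemi e => (s1 v : V) := by
        funext v
        exact hf1 v
      rw [this]
      fun_prop
    · rw [continuousOn_iff_continuous_domRestrict]
      have : (hemi (-e)).domRestrict f = fun v : hemi (-e) =>
          ((Circle.exp (Θ v) : Circle) : ℂ) • (s2 v : V) := by
        funext v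
        exact hf2 v
      rw [this]
      fun_prop
  have hfn : ∀ v, ‖f v‖ = 1 := by
    intro v
    by_cases h : v ∈ hemi e
    · rw [hf1 ⟨v, h⟩, LineFib.nrm_one]
    · rw [hf2 ⟨v, hdich v h⟩, norm_smul, Circle.norm_coe, one_mul, LineFib.nrm_one]
  have hfP : ∀ v, L.P (b v) (f v) = f v := by
    intro v
    by_cases h : v ∈ hemi e
    · rw [hf1 ⟨v, h⟩]
      have := hs1 ⟨v, h⟩
      change L.π (s1 ⟨v, h⟩) = b v at this
      rw [← this, L.P_self]
    · rw [hf2 ⟨v, hdich v h⟩, map_smul]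
      have := hs2 ⟨v, hdich v h⟩
      change L.π (s2 ⟨v, hdich v h⟩) = b v at this
      rw [← this, L.P_self]
  exact ⟨⟨fun v => ⟨f v, mem_sphere_zero_iff_norm.2 (hfn v)⟩, by fun_prop⟩,
    fun v => L.eq_of_P (hfP v)⟩

end hemi

/-- Maps of spheres into spheres of larger dimension are nullhomotopic. -/
theorem null_low {E V : Type*} [NormedAddCommGroup E] [NormedSpace ℝ E] [FiniteDimensional ℝ E]
    [NormedAddCommGroup V] [NormedSpace ℝ V] [FiniteDimensional ℝ V]
    (h : finrank ℝ E + 1 < finrank ℝ V) (f : C(sphere (0 : E) 1, sphere (0 : V) 1)) :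
    f.Nullhomotopic := by
  have : TietzeExtension V := TietzeExtension.of_tvs ℝ
  obtain ⟨g, hg⟩ := ContinuousMap.exists_restrict_eq (isClosed_sphere (x := (0 : E)) (ε := 1))
    (⟨fun v => (f v : V), by fun_prop⟩ : C(sphere (0 : E) 1, V))
  have hg' : ∀ v : sphere (0 : E) 1, g v = f v := fun v => congrArg (fun k => k v) hg
  obtain ⟨F, hF, hFg, -⟩ := g.continuous.exists_contDiff_approx 1 (ε := fun _ => 1)
    continuous_const (fun _ => one_pos)
  let G : ℝ × E → V := fun q => q.1 • F q.2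
  have hG : ContDiff ℝ 1 G := contDiff_fst.smul (hF.comp contDiff_snd)
  have hd : Dense (Set.range G)ᶜ := hG.dense_compl_range_of_finrank_lt_finrank (by
    rw [Module.finrank_prod, Module.finrank_self]
    omega)
  obtain ⟨v, hv⟩ := hd.nonempty
  have hv0 : v ≠ 0 := by
    rintro rfl
    exact hv ⟨(0, 0), by simp [G]⟩
  have hFv : ∀ (s : ℝ) x, s • F x ≠ v := fun s x hx => hv ⟨(s, x), hx⟩
  have hclose : ∀ x : sphere (0 : E) 1, ‖F x - f x‖ < 1 := by
    intro x
    have := hFg x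
    rw [hg', dist_eq_norm] at this
    exact this
  have hfn : ∀ x, ‖(f x : V)‖ = 1 := fun x => mem_sphere_zero_iff_norm.1 (f x).2
  -- first homotopy
  let H1 : C(I × sphere (0 : E) 1, V) :=
    ⟨fun q => (f q.2 : V) + (q.1 : ℝ) • (F q.2 - f q.2), by
      have := hF.continuous
      fun_prop⟩
  have hH1 : ∀ q, H1 q ≠ 0 := by
    rintro ⟨s, t⟩ h0
    have h1 : (f t : V) = -((s : ℝ) • (F t - f t)) := eq_neg_of_add_eq_zero_left h0
    have h2 : ‖(f t : V)‖ = |(s : ℝ)| * ‖F t - f t‖ := by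
      rw [← Real.norm_eq_abs, ← norm_smul, ← norm_neg ((s : ℝ) • (F t - f t)), ← h1]
    rw [hfn] at h2
    have h3 : |(s : ℝ)| ≤ 1 := by rw [abs_of_nonneg s.2.1]; exact s.2.2
    have h4 := hclose t
    nlinarith [norm_nonneg (F t - f t), abs_nonneg (s : ℝ)]
  have hFne : ∀ x : sphere (0 : E) 1, F x ≠ 0 := by
    intro x h0
    apply hH1 (1, x)
    change (f x : V) + ((1 : I) : ℝ) • (F x - f x) = 0
    rw [h0]
    simp
  -- second homotopy
  let H2 : C(I × sphere (0 : E) 1, V) :=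
    ⟨fun q => (1 - (q.1 : ℝ)) • F q.2 - (q.1 : ℝ) • v, by
      have := hF.continuous
      fun_prop⟩
  have hH2 : ∀ q, H2 q ≠ 0 := by
    rintro ⟨t, x⟩ h0
    have h1 : (1 - (t : ℝ)) • F x = (t : ℝ) • v := sub_eq_zero.1 h0
    by_cases ht : (t : ℝ) = 0
    · rw [ht, zero_smul, sub_zero, one_smul] at h1
      exact hFne x h1
    · apply hFv ((t : ℝ)⁻¹ * (1 - t)) x
      rw [mul_smul, h1, smul_smul, inv_mul_cancel₀ ht, one_smul]
  let F0 : C(sphere (0 : E) 1, V) := ⟨fun x => F x, by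
      have := hF.continuous
      fun_prop⟩
  have k1 : f.Homotopic (nm F0 hFne) := by
    refine ⟨⟨nm H1 hH1, fun x => ?_, fun x => ?_⟩⟩
    · apply Subtype.ext
      change (nm H1 hH1 (0, x) : V) = f x
      rw [nm_coe]
      have : H1 (0, x) = f x := by
        change (f x : V) + ((0 : I) : ℝ) • (F x - f x) = f x
        simp
      rw [this, hfn]
      simp
    · apply Subtype.ext
      change (nm H1 hH1 (1, x) : V) = nm F0 hFne x
      rw [nm_coe, nm_coe]
      have : H1 (1, x) = F0 x := by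
        change (f x : V) + ((1 : I) : ℝ) • (F x - f x) = F x
        simp
      rw [this]
  have hvn : ‖-v‖ ≠ 0 := by simpa using hv0
  let w : sphere (0 : V) 1 := ⟨‖-v‖⁻¹ • (-v), by
    rw [mem_sphere_zero_iff_norm, norm_smul, norm_inv, norm_norm, inv_mul_cancel₀ hvn]⟩
  have k2 : (nm F0 hFne).Homotopic (ContinuousMap.const _ w) := by
    refine ⟨⟨nm H2 hH2, fun x => ?_, fun x => ?_⟩⟩
    · apply Subtype.ext
      change (nm H2 hH2 (0, x) : V) = nm F0 hFne x
      rw [nm_coe, nm_coe]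
      have : H2 (0, x) = F0 x := by
        change (1 - ((0 : I) : ℝ)) • F x - ((0 : I) : ℝ) • v = F x
        simp
      rw [this]
    · apply Subtype.ext
      change (nm H2 hH2 (1, x) : V) = ‖-v‖⁻¹ • (-v)
      rw [nm_coe]
      have : H2 (1, x) = -v := by
        change (1 - ((1 : I) : ℝ)) • F x - ((1 : I) : ℝ) • v = -v
        simp
      rw [this]
  exact ⟨w, k1.trans k2⟩

end Pool.Agent.H472R3
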