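import Pool.Agent.H472R3.CP

/-!
`S² × Y` is not homeomorphic to `ℂPⁿ` for `n ≥ 2`.
-/

open Set Metric Module
open scoped unitInterval ComplexConjugate

set_option autoImplicit false
set_option linter.unusedSectionVars false

noncomputable section

namespace Pool.Agent.H472R3

/-- The Hopf map is not nullhomotopic. -/
theorem hopf_not_null {d : ℕ} (hd : 2 < d)
    (j : sphere (0 : EuclideanSpace ℝ (Fin d)) 1 ≃ₜ sphere (0 : EuclideanSpace ℂ (Fin 2)) 1)
    (η : C(sphere (0 : EuclideanSpace ℝ (Fin d)) 1, SS2)) (hη : ∀ x, η x = hopfFib.π (j x)) :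
    ¬ η.Nullhomotopic := by
  rintro ⟨p, ⟨H⟩⟩
  have hsc : SimplyConnectedSpace (sphere (0 : EuclideanSpace ℝ (Fin d)) 1) :=
    Pool.Agent.Helper206.BoxS.Sph.simplyConnected_sphere (by simpa using hd)
  have hfact : Fact (finrank ℝ (EuclideanSpace ℝ (Fin d)) = (d - 1) + 1) := ⟨by simp; omega⟩
  have hlp : LocallyPathConnectedSpace (sphere (0 : EuclideanSpace ℝ (Fin d)) 1) :=
    ChartedSpace.locallyPathConnectedSpace (EuclideanSpace ℝ (Fin (d - 1))) _
  let j' : C(sphere (0 : EuclideanSpace ℝ (Fin d)) 1, sphere (0 : EuclideanSpace ℂ (Fin 2)) 1) :=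
    ⟨j, j.continuous⟩
  obtain ⟨s, hs, hs0⟩ := hopfFib.lift (X := sphere (0 : EuclideanSpace ℝ (Fin d)) 1)
    ⟨fun q => H (q.2, q.1), by fun_prop⟩ j' (by
      intro x
      change hopfFib.π (j x) = H (0, x)
      rw [H.apply_zero, hη])
  obtain ⟨v0, hv0⟩ := hopfFib.surj p
  have hrel : ∀ x, (s (x, 1) : EuclideanSpace ℂ (Fin 2)) =
      inner ℂ (v0 : EuclideanSpace ℂ (Fin 2)) (s (x, 1) : EuclideanSpace ℂ (Fin 2)) •
        (v0 : EuclideanSpace ℂ (Fin 2)) := by
    intro x
    rw [← hopfFib.P_π, hv0]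
    have h1 : p = hopfFib.π (s (x, 1)) := by
      rw [hs]
      change p = H (1, x)
      rw [H.apply_one]
      rfl
    rw [h1, hopfFib.P_self]
  have hn : ∀ x, ‖(inner ℂ (v0 : EuclideanSpace ℂ (Fin 2))
      (s (x, 1) : EuclideanSpace ℂ (Fin 2)) : ℂ)‖ = 1 := fun x => norm_factor (hrel x)
  let c : C(sphere (0 : EuclideanSpace ℝ (Fin d)) 1, Circle) :=
    ⟨fun x => ⟨inner ℂ (v0 : EuclideanSpace ℂ (Fin 2)) (s (x, 1) : EuclideanSpace ℂ (Fin 2)),
      mem_sphere_zero_iff_norm.2 (hn x)⟩, by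
      refine Continuous.subtype_mk ?_ _
      fun_prop⟩
  obtain ⟨θ, hθ⟩ := lift_circle c
  have hθ' : ∀ x, (s (x, 1) : EuclideanSpace ℂ (Fin 2)) =
      ((Circle.exp (θ x) : Circle) : ℂ) • (v0 : EuclideanSpace ℂ (Fin 2)) := by
    intro x
    rw [hθ x]
    exact hrel x
  let f : C(sphere (0 : EuclideanSpace ℝ (Fin d)) 1, sphere (0 : EuclideanSpace ℂ (Fin 2)) 1) :=
    ⟨fun x => s (x, 1), by fun_prop⟩
  have k1 : j'.Homotopic f := by
    refine ⟨⟨⟨fun q => s (q.2, q.1), by fun_prop⟩, fun x => ?_, fun x => ?_⟩⟩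
    · exact hs0 x
    · rfl
  have k2 : f.Homotopic (ContinuousMap.const _ v0) := by
    have hu : ∀ t : ℝ, ((Circle.exp t : Circle) : ℂ) • (v0 : EuclideanSpace ℂ (Fin 2)) ∈
        sphere (0 : EuclideanSpace ℂ (Fin 2)) 1 := by
      intro t
      rw [mem_sphere_zero_iff_norm, norm_smul, Circle.norm_coe, one_mul, LineFib.nrm_one]
    refine ⟨⟨⟨fun q => ⟨((Circle.exp ((1 - (q.1 : ℝ)) * θ q.2) : Circle) : ℂ) •
      (v0 : EuclideanSpace ℂ (Fin 2)), hu _⟩, by fun_prop⟩, fun x => ?_, fun x => ?_⟩⟩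
    · apply Subtype.ext
      change ((Circle.exp ((1 - ((0 : I) : ℝ)) * θ x) : Circle) : ℂ) •
        (v0 : EuclideanSpace ℂ (Fin 2)) = s (x, 1)
      rw [hθ' x]
      simp
    · apply Subtype.ext
      change ((Circle.exp ((1 - ((1 : I) : ℝ)) * θ x) : Circle) : ℂ) •
        (v0 : EuclideanSpace ℂ (Fin 2)) = v0
      simp
  have k3 : j'.Nullhomotopic := ⟨v0, k1.trans k2⟩
  have k4 := k3.comp_right (⟨j.symm, j.symm.continuous⟩ :
    C(sphere (0 : EuclideanSpace ℂ (Fin 2)) 1, sphere (0 : EuclideanSpace ℝ (Fin d)) 1))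
  apply sphere_not_null d
  have h3 : (⟨j.symm, j.symm.continuous⟩ :
      C(sphere (0 : EuclideanSpace ℂ (Fin 2)) 1, sphere (0 : EuclideanSpace ℝ (Fin d)) 1)).comp j' =
      ContinuousMap.id _ := by
    ext1 x
    exact j.symm_apply_apply x
  rw [← h3]
  exact k4

/-- a real isometry induces a homeomorphism of unit spheres -/
def sphHomeo {E V : Type*} [NormedAddCommGroup E] [NormedSpace ℝ E] [NormedAddCommGroup V]
    [NormedSpace ℝ V] (J : E ≃ₗᵢ[ℝ] V) : sphere (0 : E) 1 ≃ₜ sphere (0 : V) 1 where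
  toFun x := ⟨J x, by
    rw [mem_sphere_zero_iff_norm, J.norm_map]
    exact mem_sphere_zero_iff_norm.1 x.2⟩
  invFun x := ⟨J.symm x, by
    rw [mem_sphere_zero_iff_norm, J.symm.norm_map]
    exact mem_sphere_zero_iff_norm.1 x.2⟩
  left_inv x := Subtype.ext (J.symm_apply_apply x)
  right_inv x := Subtype.ext (J.apply_symm_apply x)
  continuous_toFun := by
    refine Continuous.subtype_mk ?_ _
    exact J.continuous.comp continuous_subtype_val
  continuous_invFun := by
    refine Continuous.subtype_mk ?_ _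
    exact J.symm.continuous.comp continuous_subtype_val

theorem exists_sphHomeo : ∃ d : ℕ, d = 4 ∧
    Nonempty (sphere (0 : EuclideanSpace ℝ (Fin d)) 1 ≃ₜ
      sphere (0 : EuclideanSpace ℂ (Fin 2)) 1) := by
  let _ : InnerProductSpace ℝ (EuclideanSpace ℂ (Fin 2)) := InnerProductSpace.rclikeToReal ℂ _
  refine ⟨finrank ℝ (EuclideanSpace ℂ (Fin 2)), ?_, ?_⟩
  · have := finrank_real_of_complex (EuclideanSpace ℂ (Fin 2))
    rw [finrank_euclideanSpace, Fintype.card_fin] at this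
    exact this
  · exact ⟨sphHomeo (stdOrthonormalBasis ℝ (EuclideanSpace ℂ (Fin 2))).repr.symm⟩

/-- **`S² × Y` is not homeomorphic to a complex projective space of complex dimension at least
two.** -/
theorem prod_not_CP (n : ℕ) (hn : 2 ≤ n) {Y : Type*} [TopologicalSpace Y] [Nonempty Y] :
    IsEmpty ((SS2 × Y) ≃ₜ ComplexProjectiveSpace n) := by
  refine ⟨fun φ => ?_⟩
  obtain ⟨d, hd, ⟨j⟩⟩ := exists_sphHomeo
  obtain ⟨p0⟩ : Nonempty Y := inferInstance
  have hπ : Continuous hopfFib.π := by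
    refine Continuous.subtype_mk ?_ _
    unfold hopfFun
    have h0 : Continuous (fun v : sphere (0 : EuclideanSpace ℂ (Fin 2)) 1 =>
      (v : EuclideanSpace ℂ (Fin 2)) 0) := by fun_prop
    have h1 : Continuous (fun v : sphere (0 : EuclideanSpace ℂ (Fin 2)) 1 =>
      (v : EuclideanSpace ℂ (Fin 2)) 1) := by fun_prop
    have hm := (Complex.continuous_conj.comp h0).mul h1
    have e0 := (Complex.continuous_re.comp hm).const_mul 2
    have e1 := (Complex.continuous_im.comp hm).const_mul 2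
    have e2 := (Complex.continuous_normSq.comp h0).sub (Complex.continuous_normSq.comp h1)
    refine (PiLp.continuous_toLp 2 _).comp (continuous_pi fun i => ?_)
    fin_cases i
    · exact e0
    · exact e1
    · exact e2
  let η : C(sphere (0 : EuclideanSpace ℝ (Fin d)) 1, SS2) :=
    ⟨fun x => hopfFib.π (j x), hπ.comp j.continuous⟩
  apply hopf_not_null (by omega) j η (fun x => rfl)
  let a : C(SS2, ComplexProjectiveSpace n) := ⟨fun x => φ (x, p0), by fun_prop⟩
  let r : C(ComplexProjectiveSpace n, SS2) :=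
    ⟨fun z => (φ.symm z).1, by fun_prop⟩
  obtain ⟨s, hs⟩ := (cpFib n).lift_sphere (E := EuclideanSpace ℝ (Fin d))
    (by rw [finrank_euclideanSpace, Fintype.card_fin]; omega) (a.comp η)
  have hs1 : s.Nullhomotopic := by
    apply null_low
    have := finrank_real_of_complex (EuclideanSpace ℂ (Fin (n + 1)))
    rw [finrank_euclideanSpace, Fintype.card_fin] at this
    rw [this, finrank_euclideanSpace, Fintype.card_fin]
    omega
  have hs2 := hs1.comp_right (cpMk n)
  have e1 : (cpMk n).comp s = a.comp η := by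
    ext1 x
    exact hs x
  rw [e1] at hs2
  have hs3 := hs2.comp_right r
  have e2 : r.comp (a.comp η) = η := by
    ext1 x
    change (φ.symm (φ (η x, p0))).1 = η x
    rw [φ.symm_apply_apply]
  rw [e2] at hs3
  exact hs3

end Pool.Agent.H472R3
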