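import Pool.Agent.H893R5.HO.Strong
import Pool.Agent.H893R5.HO.Frame
import Pool.Agent.H907R2.HO.PosDef

/-!
A compact manifold (with global frame data) that carries a metric of positive sectional curvature
carries one with `δ ≤ K ≤ 1` for some `δ > 0`.
-/

open Bundle Manifold ContDiff ContinuousLinearMap Filter VectorField Metric
open scoped Topology

set_option autoImplicit false
set_option linter.unusedSectionVars false

noncomputable section

namespace Pool.Agent.H472R3

open Pool.Agent.H821R2 Pool.Agent.H821R3 Pool.Agent.H893R5.HO Pool.Agent.H907R2.HO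

variable {E : Type*} [NormedAddCommGroup E] [NormedSpace ℝ E] [FiniteDimensional ℝ E]
  {H : Type*} [TopologicalSpace H] {I : ModelWithCorners ℝ E H}
  {M : Type*} [TopologicalSpace M] [ChartedSpace H M] [IsManifold I ∞ M]
  {ι : Type} [Fintype ι]

/-- The metric `g` has a Levi-Civita connection with a Riemann curvature tensor, and all its
sectional curvatures (of planes spanned by orthonormal pairs) lie in `[δ, 1]`. -/
def IsPinchedMetric (g : ContMDiffRiemannianMetric I ∞ E (fun x : M => TangentSpace I x))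
    (δ : ℝ) : Prop :=
  (∃ (cov : CovariantDerivative I E (TangentSpace I : M → Type _)) (R : CurvField I M),
      IsLeviCivita g cov ∧ IsRiemannTensor cov R) ∧
    ∀ (cov : CovariantDerivative I E (TangentSpace I : M → Type _)) (R : CurvField I M),
      IsLeviCivita g cov → IsRiemannTensor cov R →
      ∀ (x : M) (u v : TangentSpace I x), OrthoPair g x u v →
        δ ≤ sec g R x u v ∧ sec g R x u v ≤ 1

namespace FD

variable (D : FrameData I M ι)

/-- coordinates of a tangent vector -/
def co (x : M) (u : TangentSpace I x) : ι → ℝ := fun i => mvfderiv I (D.f i) x u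

/-- the tangent vector with coordinates `a` -/
def ev (x : M) (a : ι → ℝ) : TangentSpace I x := ∑ i, a i • D.e i x

theorem ev_co (x : M) (u : TangentSpace I x) : ev D x (co D x u) = u := D.repr x u

/-- the matrix of the projection -/
def pr (x : M) (a : ι → ℝ) : ι → ℝ := fun j => ∑ i, a i * mvfderiv I (D.f j) x (D.e i x)

theorem co_ev (x : M) (a : ι → ℝ) : co D x (ev D x a) = pr D x a := by
  ext j
  simp only [co, ev, pr, map_sum, map_smul, smul_eq_mul]

theorem pr_co (x : M) (u : TangentSpace I x) : pr D x (co D x u) = co D x u := by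
  rw [← co_ev, ev_co]

theorem cont_pr : Continuous (fun q : M × (ι → ℝ) => pr D q.1 q.2) := by
  unfold pr
  refine continuous_pi fun j => continuous_finsetSum _ fun i _ => ?_
  have h : Continuous (fun x : M => mvfderiv I (D.f j) x (D.e i x)) :=
    (Sm.der (D.he i) (D.hf j)).continuous
  exact ((continuous_apply i).comp continuous_snd).mul (h.comp continuous_fst)

/-- the metric in coordinates -/
def gq (g : ContMDiffRiemannianMetric I ∞ E (fun x : M => TangentSpace I x))
    (x : M) (a b : ι → ℝ) : ℝ := ∑ i, ∑ j, a i * b j * gi g (D.e i) (D.e j) x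

theorem gq_eq (g : ContMDiffRiemannianMetric I ∞ E (fun x : M => TangentSpace I x))
    (x : M) (a b : ι → ℝ) : gq D g x a b = g.inner x (ev D x a) (ev D x b) := by
  have e1 : g.inner x (ev D x a) = ∑ i, a i • g.inner x (D.e i x) := by
    rw [ev, map_sum]
    refine Finset.sum_congr rfl fun i _ => ?_
    rw [map_smul]
  rw [e1, sum_apply]
  unfold gq
  refine Finset.sum_congr rfl fun i _ => ?_
  rw [smul_apply, ev, map_sum, Finset.smul_sum]
  refine Finset.sum_congr rfl fun j _ => ?_
  rw [map_smul, smul_eq_mul, smul_eq_mul, gi]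
  ring

theorem cont_gq (g : ContMDiffRiemannianMetric I ∞ E (fun x : M => TangentSpace I x)) :
    Continuous (fun q : M × (ι → ℝ) × (ι → ℝ) => gq D g q.1 q.2.1 q.2.2) := by
  unfold gq
  refine continuous_finsetSum _ fun i _ => continuous_finsetSum _ fun j _ => ?_
  have h : Continuous (gi g (D.e i) (D.e j)) := (gi_smooth (D.he i) (D.he j)).continuous
  exact ((((continuous_apply i).comp (continuous_fst.comp continuous_snd))).mul
    ((continuous_apply j).comp (continuous_snd.comp continuous_snd))).mul (h.comp continuous_fst)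

/-- the curvature in coordinates -/
def sq (g : ContMDiffRiemannianMetric I ∞ E (fun x : M => TangentSpace I x))
    (cov : CovariantDerivative I E (TangentSpace I : M → Type _))
    (x : M) (a b : ι → ℝ) : ℝ := ∑ i, ∑ j, ∑ k, ∑ l, a i * b j * b k * a l *
      gi g (curv cov (D.e i) (D.e j) (D.e k)) (D.e l) x

theorem smooth_curv [T2Space M] [SigmaCompactSpace M]
    {g : ContMDiffRiemannianMetric I ∞ E (fun x : M => TangentSpace I x)}
    {cov : CovariantDerivative I E (TangentSpace I : M → Type _)} (h : IsLeviCivita g cov)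
    {X Y Z : Π x : M, TangentSpace I x} (hX : SmV X) (hY : SmV Y) (hZ : SmV Z) :
    SmV (curv cov X Y Z) := by
  have h1 : SmV (nabla cov X (nabla cov Y Z)) := nabla_smooth h hX (nabla_smooth h hY hZ)
  have h2 : SmV (nabla cov Y (nabla cov X Z)) := nabla_smooth h hY (nabla_smooth h hX hZ)
  have h3 : SmV (nabla cov (mlieBracket I X Y) Z) := nabla_smooth h (smooth_bracket hX hY) hZ
  exact (h1.sub_section h2).sub_section h3

theorem sq_eq {g : ContMDiffRiemannianMetric I ∞ E (fun x : M => TangentSpace I x)}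
    {cov : CovariantDerivative I E (TangentSpace I : M → Type _)} {R : CurvField I M}
    (hR : IsRiemannTensor cov R) (x : M) (a b : ι → ℝ) :
    sq D g cov x a b = g.inner x (R x (ev D x a) (ev D x b) (ev D x b)) (ev D x a) := by
  have e1 : R x (ev D x a) (ev D x b) (ev D x b) =
      ∑ i, ∑ j, ∑ k, (a i * b j * b k) • R x (D.e i x) (D.e j x) (D.e k x) := by
    have s1 : ∀ w, R x (ev D x a) (ev D x b) w = ∑ i, ∑ j, (a i * b j) •
        R x (D.e i x) (D.e j x) w := by
      intro w
      have : R x (ev D x a) = ∑ i, a i • R x (D.e i x) := by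
        rw [ev, map_sum]
        refine Finset.sum_congr rfl fun i _ => ?_
        rw [map_smul]
      rw [this, LinearMap.sum_apply, LinearMap.sum_apply]
      refine Finset.sum_congr rfl fun i _ => ?_
      have : R x (D.e i x) (ev D x b) = ∑ j, b j • R x (D.e i x) (D.e j x) := by
        rw [ev, map_sum]
        refine Finset.sum_congr rfl fun j _ => ?_
        rw [map_smul]
      rw [LinearMap.smul_apply, LinearMap.smul_apply, this, LinearMap.sum_apply, Finset.smul_sum]
      refine Finset.sum_congr rfl fun j _ => ?_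
      rw [LinearMap.smul_apply, smul_smul]
    rw [s1]
    refine Finset.sum_congr rfl fun i _ => Finset.sum_congr rfl fun j _ => ?_
    have : R x (D.e i x) (D.e j x) (ev D x b) = ∑ k, b k • R x (D.e i x) (D.e j x) (D.e k x) := by
      rw [ev, map_sum]
      refine Finset.sum_congr rfl fun k _ => ?_
      rw [map_smul]
    rw [this, Finset.smul_sum]
    refine Finset.sum_congr rfl fun k _ => ?_
    rw [smul_smul]
  rw [e1]
  have e2 : ∀ w : TangentSpace I x, g.inner x w (ev D x a) = ∑ l, a l * g.inner x w (D.e l x) := by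
    intro w
    rw [ev, map_sum]
    refine Finset.sum_congr rfl fun l _ => ?_
    rw [map_smul, smul_eq_mul]
  unfold sq
  rw [map_sum, sum_apply]
  refine Finset.sum_congr rfl fun i _ => ?_
  rw [map_sum, sum_apply]
  refine Finset.sum_congr rfl fun j _ => ?_
  rw [map_sum, sum_apply]
  refine Finset.sum_congr rfl fun k _ => ?_
  rw [map_smul, smul_apply, smul_eq_mul, e2, Finset.mul_sum]
  refine Finset.sum_congr rfl fun l _ => ?_
  rw [hR (D.he i) (D.he j) (D.he k) x, gi]
  ring

theorem cont_sq [T2Space M] [SigmaCompactSpace M]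
    {g : ContMDiffRiemannianMetric I ∞ E (fun x : M => TangentSpace I x)}
    {cov : CovariantDerivative I E (TangentSpace I : M → Type _)} (h : IsLeviCivita g cov) :
    Continuous (fun q : M × (ι → ℝ) × (ι → ℝ) => sq D g cov q.1 q.2.1 q.2.2) := by
  unfold sq
  refine continuous_finsetSum _ fun i _ => continuous_finsetSum _ fun j _ =>
    continuous_finsetSum _ fun k _ => continuous_finsetSum _ fun l _ => ?_
  have h1 : Continuous (gi g (curv cov (D.e i) (D.e j) (D.e k)) (D.e l)) :=
    (gi_smooth (smooth_curv h (D.he i) (D.he j) (D.he k)) (D.he l)).continuous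
  have ha : ∀ m, Continuous (fun q : M × (ι → ℝ) × (ι → ℝ) => q.2.1 m) := fun m =>
    (continuous_apply m).comp (continuous_fst.comp continuous_snd)
  have hb : ∀ m, Continuous (fun q : M × (ι → ℝ) × (ι → ℝ) => q.2.2 m) := fun m =>
    (continuous_apply m).comp (continuous_snd.comp continuous_snd)
  exact ((((ha i).mul (hb j)).mul (hb k)).mul (ha l)).mul (h1.comp continuous_fst)

/-- lower bound for the metric in coordinates -/
theorem lower [CompactSpace M] [T2Space M]
    (g : ContMDiffRiemannianMetric I ∞ E (fun x : M => TangentSpace I x)) :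
    ∃ c : ℝ, 0 < c ∧ ∀ (x : M) (a : ι → ℝ), pr D x a = a → c * ‖a‖ ^ 2 ≤ gq D g x a a := by
  classical
  set K : Set (M × (ι → ℝ)) := {q | pr D q.1 q.2 = q.2} ∩ (Set.univ ×ˢ sphere (0 : ι → ℝ) 1)
    with hK
  have hKc : IsCompact K := by
    refine IsCompact.inter_left (isCompact_univ.prod (isCompact_sphere _ _)) ?_
    exact isClosed_eq (cont_pr D) continuous_snd
  have hcont : Continuous (fun q : M × (ι → ℝ) => gq D g q.1 q.2 q.2) :=
    (cont_gq D g).comp (continuous_fst.prodMk (continuous_snd.prodMk continuous_snd))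
  have hpos : ∀ q ∈ K, 0 < gq D g q.1 q.2 q.2 := by
    rintro ⟨x, a⟩ ⟨h1, -, h2⟩
    simp only [Set.mem_ofPred_eq] at h1
    simp only [mem_sphere_iff_norm, sub_zero] at h2
    rw [gq_eq]
    apply g.pos
    intro h0
    have : a = 0 := by
      rw [← h1, ← co_ev, h0]
      ext i
      simp [co]
    rw [this] at h2
    simp at h2
  obtain ⟨c, hc, hcK⟩ : ∃ c : ℝ, 0 < c ∧ ∀ q ∈ K, c ≤ gq D g q.1 q.2 q.2 := by
    rcases K.eq_empty_or_nonempty with hE | hN
    · exact ⟨1, one_pos, fun q hq => by rw [hE] at hq; exact absurd hq (Set.notMem_empty _)⟩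
    · obtain ⟨q0, hq0, hmin⟩ := hKc.exists_isMinOn hN hcont.continuousOn
      exact ⟨_, hpos q0 hq0, fun q hq => hmin hq⟩
  refine ⟨c, hc, fun x a ha => ?_⟩
  by_cases h0 : a = 0
  · rw [h0]
    have : gq D g x 0 0 = 0 := by simp [gq]
    rw [this]
    simp
  · have hn : ‖a‖ ≠ 0 := norm_ne_zero_iff.2 h0
    have h1 : (x, ‖a‖⁻¹ • a) ∈ K := by
      refine ⟨?_, Set.mem_univ _, ?_⟩
      · change pr D x (‖a‖⁻¹ • a) = ‖a‖⁻¹ • a
        have hlin : pr D x (‖a‖⁻¹ • a) = ‖a‖⁻¹ • pr D x a := by
          ext j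
          simp only [pr, Pi.smul_apply, smul_eq_mul, Finset.mul_sum]
          refine Finset.sum_congr rfl fun i _ => ?_
          ring
        rw [hlin, ha]
      · simp [norm_smul, hn]
    have h2 := hcK _ h1
    have h3 : gq D g x (‖a‖⁻¹ • a) (‖a‖⁻¹ • a) = (‖a‖⁻¹) ^ 2 * gq D g x a a := by
      simp only [gq, Pi.smul_apply, smul_eq_mul, Finset.mul_sum]
      refine Finset.sum_congr rfl fun i _ => Finset.sum_congr rfl fun j _ => ?_
      ring
    simp only at h2
    rw [h3] at h2
    have h4 : 0 < ‖a‖ ^ 2 := by positivity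
    calc c * ‖a‖ ^ 2 ≤ ((‖a‖⁻¹) ^ 2 * gq D g x a a) * ‖a‖ ^ 2 :=
          mul_le_mul_of_nonneg_right h2 h4.le
      _ = gq D g x a a := by field_simp

include D in
/-- uniform bounds for the sectional curvature -/
theorem bounds [CompactSpace M] [T2Space M]
    {g : ContMDiffRiemannianMetric I ∞ E (fun x : M => TangentSpace I x)}
    {cov : CovariantDerivative I E (TangentSpace I : M → Type _)} {R : CurvField I M}
    (h : IsLeviCivita g cov) (hR : IsRiemannTensor cov R)
    (hpos : ∀ (x : M) (u v : TangentSpace I x), OrthoPair g x u v → 0 < sec g R x u v) :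
    ∃ δ C : ℝ, 0 < δ ∧ δ ≤ C ∧ ∀ (x : M) (u v : TangentSpace I x), OrthoPair g x u v →
      δ ≤ sec g R x u v ∧ sec g R x u v ≤ C := by
  obtain ⟨c, hc, hlow⟩ := lower D g
  set r : ℝ := Real.sqrt c⁻¹ with hr
  set K : Set (M × (ι → ℝ) × (ι → ℝ)) :=
    ({q | pr D q.1 q.2.1 = q.2.1} ∩ {q | pr D q.1 q.2.2 = q.2.2} ∩
      {q | gq D g q.1 q.2.1 q.2.1 = 1} ∩ {q | gq D g q.1 q.2.2 q.2.2 = 1} ∩
      {q | gq D g q.1 q.2.1 q.2.2 = 0}) ∩
      (Set.univ ×ˢ closedBall (0 : ι → ℝ) r ×ˢ closedBall (0 : ι → ℝ) r) with hK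
  have c1 : Continuous (fun q : M × (ι → ℝ) × (ι → ℝ) => (q.1, q.2.1)) :=
    continuous_fst.prodMk (continuous_fst.comp continuous_snd)
  have c2 : Continuous (fun q : M × (ι → ℝ) × (ι → ℝ) => (q.1, q.2.2)) :=
    continuous_fst.prodMk (continuous_snd.comp continuous_snd)
  have hKc : IsCompact K := by
    refine IsCompact.inter_left (isCompact_univ.prod ((isCompact_closedBall _ _).prod
      (isCompact_closedBall _ _))) ?_
    refine (((IsClosed.inter ?_ ?_).inter ?_).inter ?_).inter ?_
    · exact isClosed_eq ((cont_pr D).comp c1) (continuous_fst.comp continuous_snd)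
    · exact isClosed_eq ((cont_pr D).comp c2) (continuous_snd.comp continuous_snd)
    · exact isClosed_eq ((cont_gq D g).comp (continuous_fst.prodMk
        ((continuous_fst.comp continuous_snd).prodMk (continuous_fst.comp continuous_snd))))
        continuous_const
    · exact isClosed_eq ((cont_gq D g).comp (continuous_fst.prodMk
        ((continuous_snd.comp continuous_snd).prodMk (continuous_snd.comp continuous_snd))))
        continuous_const
    · exact isClosed_eq (cont_gq D g) continuous_const
  have hcont : Continuous (fun q : M × (ι → ℝ) × (ι → ℝ) => sq D g cov q.1 q.2.1 q.2.2) :=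
    cont_sq D h
  have hmem : ∀ (x : M) (u v : TangentSpace I x), OrthoPair g x u v →
      (x, co D x u, co D x v) ∈ K := by
    intro x u v ⟨h1, h2, h3⟩
    have k1 : gq D g x (co D x u) (co D x u) = 1 := by rw [gq_eq, ev_co, h1]
    have k2 : gq D g x (co D x v) (co D x v) = 1 := by rw [gq_eq, ev_co, h2]
    have k3 : gq D g x (co D x u) (co D x v) = 0 := by rw [gq_eq, ev_co, ev_co, h3]
    have hb : ∀ a : ι → ℝ, pr D x a = a → gq D g x a a = 1 → a ∈ closedBall (0 : ι → ℝ) r := by
      intro a ha hb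
      have := hlow x a ha
      rw [hb] at this
      rw [mem_closedBall, dist_zero_right, hr]
      apply Real.le_sqrt_of_sq_le
      rw [← one_div, le_div_iff₀ hc]
      linarith
    exact ⟨⟨⟨⟨⟨pr_co D x u, pr_co D x v⟩, k1⟩, k2⟩, k3⟩, Set.mem_univ _,
      hb _ (pr_co D x u) k1, hb _ (pr_co D x v) k2⟩
  have hval : ∀ (x : M) (u v : TangentSpace I x),
      sq D g cov x (co D x u) (co D x v) = sec g R x u v := by
    intro x u v
    rw [sq_eq D hR, ev_co, ev_co, sec]
  have hposK : ∀ q ∈ K, 0 < sq D g cov q.1 q.2.1 q.2.2 := by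
    rintro ⟨x, a, b⟩ ⟨⟨⟨⟨⟨h1, h2⟩, h3⟩, h4⟩, h5⟩, -⟩
    simp only [Set.mem_ofPred_eq] at h1 h2 h3 h4 h5
    rw [sq_eq D hR]
    refine hpos x (ev D x a) (ev D x b) ⟨?_, ?_, ?_⟩
    · rw [← gq_eq, h3]
    · rw [← gq_eq, h4]
    · rw [← gq_eq, h5]
  rcases K.eq_empty_or_nonempty with hE | hN
  · refine ⟨1, 1, one_pos, le_refl _, fun x u v huv => ?_⟩
    have := hmem x u v huv
    rw [hE] at this
    exact absurd this (Set.notMem_empty _)
  · obtain ⟨q0, hq0, hmin⟩ := hKc.exists_isMinOn hN hcont.continuousOn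
    obtain ⟨q1, hq1, hmax⟩ := hKc.exists_isMaxOn hN hcont.continuousOn
    have hmin' : ∀ q ∈ K, sq D g cov q0.1 q0.2.1 q0.2.2 ≤ sq D g cov q.1 q.2.1 q.2.2 :=
      isMinOn_iff.1 hmin
    have hmax' : ∀ q ∈ K, sq D g cov q.1 q.2.1 q.2.2 ≤ sq D g cov q1.1 q1.2.1 q1.2.2 :=
      isMaxOn_iff.1 hmax
    refine ⟨sq D g cov q0.1 q0.2.1 q0.2.2, sq D g cov q1.1 q1.2.1 q1.2.2, hposK q0 hq0,
      hmin' q1 hq1, fun x u v huv => ?_⟩
    have k1 := hmin' (x, co D x u, co D x v) (hmem x u v huv)
    have k2 := hmax' (x, co D x u, co D x v) (hmem x u v huv)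
    simp only at k1 k2
    rw [hval] at k1 k2
    exact ⟨k1, k2⟩

end FD

/-- the metric `c • g` -/
def scale (g : ContMDiffRiemannianMetric I ∞ E (fun x : M => TangentSpace I x)) (c : ℝ)
    (hc : 0 < c) : ContMDiffRiemannianMetric I ∞ E (fun x : M => TangentSpace I x) where
  inner x := c • g.inner x
  symm x v w := by
    change c * g.inner x v w = c * g.inner x w v
    rw [g.symm x v w]
  pos x v hv := mul_pos hc (g.pos x v hv)
  isVonNBounded x := vonN (E := E) (c • g.inner x) (fun v hv => mul_pos hc (g.pos x v hv))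
  contMDiff := ContMDiff.const_smul_section (V := fun x : M => TangentSpace I x →L[ℝ]
    TangentSpace I x →L[ℝ] Bundle.Trivial M ℝ x) g.contMDiff

theorem scale_inner (g : ContMDiffRiemannianMetric I ∞ E (fun x : M => TangentSpace I x)) (c : ℝ)
    (hc : 0 < c) (x : M) (u v : TangentSpace I x) :
    (scale g c hc).inner x u v = c * g.inner x u v := rfl

theorem lc_scale {g : ContMDiffRiemannianMetric I ∞ E (fun x : M => TangentSpace I x)} {c : ℝ}
    (hc : 0 < c) {cov : CovariantDerivative I E (TangentSpace I : M → Type _)}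
    (h : IsLeviCivita g cov) : IsLeviCivita (scale g c hc) cov where
  smooth := h.smooth
  torsionFree := h.torsionFree
  metric X Y Z hX hY hZ x := by
    have h1 := h.metric hX hY hZ x
    have h2 : mvfderiv I (fun y => (scale g c hc).inner y (Y y) (Z y)) x (X x) =
        c * mvfderiv I (fun y => g.inner y (Y y) (Z y)) x (X x) := by
      have := der_cmul (Z := X) c (gi_smooth (g := g) hY hZ)
      exact congrFun this x
    change mvfderiv I (fun y => (scale g c hc).inner y (Y y) (Z y)) x (X x) =
      c * g.inner x (cov Y x (X x)) (Z x) + c * g.inner x (Y x) (cov Z x (X x))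
    rw [h2, ← mul_add]
    exact congrArg (fun t => c * t) h1

/-- **Pinching.** A compact manifold with global frame data that admits a metric of positive
sectional curvature admits a metric with `δ ≤ K ≤ 1`, `δ > 0`. -/
theorem exists_pinched (D : FrameData I M ι) [CompactSpace M] [T2Space M]
    (hM : AdmitsPositiveCurvature I M) :
    ∃ δ : ℝ, 0 < δ ∧ δ ≤ 1 ∧
      ∃ g : ContMDiffRiemannianMetric I ∞ E (fun x : M => TangentSpace I x),
        IsPinchedMetric g δ := by
  obtain ⟨g, ⟨cov, R, hLC, hR⟩, hpos⟩ := hM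
  obtain ⟨δ, C, hδ, hδC, hb⟩ := FD.bounds D hLC hR (hpos cov R hLC hR)
  have hC : 0 < C := lt_of_lt_of_le hδ hδC
  have hLC' : IsLeviCivita (scale g C hC) cov := lc_scale hC hLC
  refine ⟨δ / C, div_pos hδ hC, (div_le_one hC).2 hδC, scale g C hC, ⟨cov, R, hLC', hR⟩, ?_⟩
  intro cov' R' h' hR' x u v huv
  have hs : sec (scale g C hC) R' x u v = sec (scale g C hC) R x u v := by
    unfold sec
    rw [riemann_unique h' hLC' hR' hR]
  rw [hs]
  set s := Real.sqrt C with hsq
  have hs0 : 0 < s := Real.sqrt_pos.2 hC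
  have hss : s * s = C := Real.mul_self_sqrt hC.le
  have smul_l : ∀ (c : ℝ) (a b : TangentSpace I x), g.inner x (c • a) b = c * g.inner x a b := by
    intro c a b
    rw [map_smul]; rfl
  have smul_r : ∀ (c : ℝ) (a b : TangentSpace I x), g.inner x a (c • b) = c * g.inner x a b := by
    intro c a b
    rw [map_smul]; rfl
  obtain ⟨h1, h2, h3⟩ := huv
  rw [scale_inner] at h1 h2 h3
  have hop : OrthoPair g x (s • u) (s • v) := by
    refine ⟨?_, ?_, ?_⟩
    · rw [smul_l, smul_r, ← mul_assoc, hss, h1]
    · rw [smul_l, smul_r, ← mul_assoc, hss, h2]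
    · rw [smul_l, smul_r, ← mul_assoc, hss, h3]
  have hk := hb x _ _ hop
  have hsec : sec g R x (s • u) (s • v) = C * sec (scale g C hC) R x u v := by
    unfold sec
    rw [scale_inner]
    have e1 : R x (s • u) (s • v) (s • v) = (s * s * s) • R x u v v := by
      simp only [map_smul, LinearMap.smul_apply, smul_smul]
      congr 1
      ring
    rw [e1, smul_l, smul_r]
    calc s * s * s * (s * g.inner x (R x u v v) u) = (s * s) * (s * s) * g.inner x (R x u v v) u := by
          ring
      _ = _ := by rw [hss]; ring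
  rw [hsec] at hk
  constructor
  · rw [div_le_iff₀ hC]
    linarith [hk.1]
  · by_contra hcon
    push Not at hcon
    nlinarith [hk.2]

end Pool.Agent.H472R3
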