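import Pool.Agent.H472R3.Pinch
import Pool.Agent.H472R3.NoCP
import Pool.Agent.H893R5.HO.SphEmb
import Pool.Agent.H907R2.HO.Strong
import Pool.Agent.H878R5.S24.Fin

/-!
The optimal pinching constants `δ*(4)` and `δ*(5)` are positive.
-/

open Bundle Manifold ContDiff Metric Module

set_option autoImplicit false
set_option linter.unusedSectionVars false

noncomputable section

namespace Pool.Agent.H472R3

open Pool.Agent.H821R2 Pool.Agent.H893R5.HO Pool.Agent.H907R2.HO

/-- The unit sphere `Sⁿ` of `ℝ^(n+1)`. -/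
abbrev Sphere (n : ℕ) : Type := sphere (0 : EuclideanSpace ℝ (Fin (n + 1))) 1

/-- `M` is homeomorphic to `S⁴` or to `ℂP²` (standard type in dimension 4; the quaternionic
projective line `ℍP¹` is homeomorphic to `S⁴`). -/
def IsStandardType4 (M : Type) [TopologicalSpace M] : Prop :=
  Nonempty (M ≃ₜ Sphere 4) ∨ Nonempty (M ≃ₜ ComplexProjectiveSpace 2)

/-- `M` is homeomorphic to `S⁵` (standard type in dimension 5). -/
def IsStandardType5 (M : Type) [TopologicalSpace M] : Prop :=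
  Nonempty (M ≃ₜ Sphere 5)

/-- Every compact simply connected smooth manifold `M` without boundary of dimension `d` that
carries a Riemannian metric with sectional curvatures in `[δ, 1]` satisfies `St`. -/
def EveryPinchedIs (d : ℕ) (St : ∀ (M : Type) [TopologicalSpace M], Prop) (δ : ℝ) : Prop :=
  ∀ (E : Type) [NormedAddCommGroup E] [NormedSpace ℝ E] [FiniteDimensional ℝ E]
    (H : Type) [TopologicalSpace H] (I : ModelWithCorners ℝ E H) [I.Boundaryless]
    (M : Type) [TopologicalSpace M] [ChartedSpace H M] [IsManifold I ∞ M]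
    [T2Space M] [CompactSpace M] [SimplyConnectedSpace M]
    (g : ContMDiffRiemannianMetric I ∞ E (fun x : M => TangentSpace I x)),
    finrank ℝ E = d → IsPinchedMetric g δ → St M

/-- The optimal pinching constant: the infimum of the `δ ∈ (0, 1]` such that every compact simply
connected `δ`-pinched `d`-manifold satisfies `St` (in the extended reals; the set is not empty by
the sphere theorem). -/
def optimalPinching (d : ℕ) (St : ∀ (M : Type) [TopologicalSpace M], Prop) : EReal :=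
  ⨅ δ ∈ {δ : ℝ | 0 < δ ∧ δ ≤ 1 ∧ EveryPinchedIs d St δ}, (δ : EReal)

theorem IsPinchedMetric.mono {E : Type*} [NormedAddCommGroup E] [NormedSpace ℝ E]
    [FiniteDimensional ℝ E] {H : Type*} [TopologicalSpace H] {I : ModelWithCorners ℝ E H}
    {M : Type*} [TopologicalSpace M] [ChartedSpace H M] [IsManifold I ∞ M]
    {g : ContMDiffRiemannianMetric I ∞ E (fun x : M => TangentSpace I x)} {δ δ' : ℝ}
    (h : IsPinchedMetric g δ) (hd : δ' ≤ δ) : IsPinchedMetric g δ' :=
  ⟨h.1, fun cov R h1 h2 x u v huv => ⟨hd.trans (h.2 cov R h1 h2 x u v huv).1,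
    (h.2 cov R h1 h2 x u v huv).2⟩⟩

/-- One nonstandard pinched manifold bounds the pinching constant from below. -/
theorem bound_of_example {d : ℕ} {St : ∀ (M : Type) [TopologicalSpace M], Prop}
    {E : Type} [NormedAddCommGroup E] [NormedSpace ℝ E] [FiniteDimensional ℝ E]
    {H : Type} [TopologicalSpace H] (I : ModelWithCorners ℝ E H) [I.Boundaryless]
    (M : Type) [TopologicalSpace M] [ChartedSpace H M] [IsManifold I ∞ M]
    [T2Space M] [CompactSpace M] [SimplyConnectedSpace M]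
    (hd : finrank ℝ E = d) (hSt : ¬ St M)
    (h : ∃ δ : ℝ, 0 < δ ∧ δ ≤ 1 ∧
      ∃ g : ContMDiffRiemannianMetric I ∞ E (fun x : M => TangentSpace I x),
        IsPinchedMetric g δ) :
    ∃ δ : ℝ, 0 < δ ∧ δ ≤ 1 ∧ ¬ EveryPinchedIs d St δ ∧ (δ : EReal) ≤ optimalPinching d St := by
  obtain ⟨δ₀, h0, h01, g, hg⟩ := h
  refine ⟨δ₀, h0, h01, fun hall => hSt (hall E H I M g hd hg), ?_⟩
  unfold optimalPinching
  refine le_iInf₂ fun δ hδ => ?_
  obtain ⟨-, -, hall⟩ := hδ
  rw [EReal.coe_le_coe_iff]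
  by_contra hlt
  push Not at hlt
  exact hSt (hall E H I M g hd (hg.mono hlt.le))

theorem nontrivial_sphere (n : ℕ) : Nontrivial (Sphere n) := by
  obtain ⟨x, hx⟩ := (NormedSpace.sphere_nonempty (x := (0 : EuclideanSpace ℝ (Fin (n + 1))))
    (r := 1)).2 zero_le_one
  have hx1 : ‖x‖ = 1 := mem_sphere_zero_iff_norm.1 hx
  refine ⟨⟨x, hx⟩, ⟨-x, by rw [mem_sphere_zero_iff_norm, norm_neg, hx1]⟩, ?_⟩
  intro h
  have h1 : x = -x := congrArg Subtype.val h
  have h2 : x = 0 := by
    have h3 : x + x = 0 := by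
      calc x + x = x + -x := by rw [← h1]
        _ = 0 := add_neg_cancel x
    have h4 : (2 : ℝ) • x = 0 := by rw [two_smul]; exact h3
    exact (smul_eq_zero.1 h4).resolve_left two_ne_zero
  rw [h2, norm_zero] at hx1
  norm_num at hx1

instance fact_finrank (n : ℕ) : Fact (finrank ℝ (EuclideanSpace ℝ (Fin (n + 1))) = n + 1) :=
  ⟨by simp⟩

theorem four_pos : ∃ δ : ℝ, 0 < δ ∧ δ ≤ 1 ∧ ¬ EveryPinchedIs 4 IsStandardType4 δ ∧
    (δ : EReal) ≤ optimalPinching 4 IsStandardType4 := by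
  have hs : SimplyConnectedSpace (Sph 2) := simplyConnected_sph 2 le_rfl
  have hss : SimplyConnectedSpace (Sph 2 × Sph 2) := simplyConnected_prod _ _
  have hnt : Nontrivial (Sph 2) := nontrivial_sphere 2
  refine bound_of_example ((𝓡 2).prod (𝓡 2)) (Sph 2 × Sph 2) ?_ ?_ ?_
  · rw [finrank_prod]; simp
  · rintro (⟨⟨φ⟩⟩ | ⟨⟨φ⟩⟩)
    · exact (prod_not_sphere 2 (Y := Sph 2) (V := EuclideanSpace ℝ (Fin (4 + 1)))).false φ
    · exact (prod_not_CP 2 le_rfl (Y := Sph 2)).false φ
  · exact exists_pinched (sph 2 2 (EuclideanSpace ℝ (Fin (2 + 1)))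
      (EuclideanSpace ℝ (Fin (2 + 1)))).fr H907H.hopfStrong

theorem five_pos : ∃ δ : ℝ, 0 < δ ∧ δ ≤ 1 ∧ ¬ EveryPinchedIs 5 IsStandardType5 δ ∧
    (δ : EReal) ≤ optimalPinching 5 IsStandardType5 := by
  have hs : SimplyConnectedSpace (Sph 2) := simplyConnected_sph 2 le_rfl
  have hs' : SimplyConnectedSpace (Sph 3) := simplyConnected_sph 3 (by norm_num)
  have hss : SimplyConnectedSpace (Sph 2 × Sph 3) := simplyConnected_prod _ _
  have hnt : Nontrivial (Sph 3) := nontrivial_sphere 3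
  refine bound_of_example ((𝓡 2).prod (𝓡 3)) (Sph 2 × Sph 3) ?_ ?_ ?_
  · rw [finrank_prod]; simp
  · rintro ⟨φ⟩
    exact (prod_not_sphere 2 (Y := Sph 3) (V := EuclideanSpace ℝ (Fin (5 + 1)))).false φ
  · exact exists_pinched (sph 2 3 (EuclideanSpace ℝ (Fin (2 + 1)))
      (EuclideanSpace ℝ (Fin (3 + 1)))).fr Pool.Agent.H878R5.product23.2.2

end Pool.Agent.H472R3
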