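import Pool.Agent.Helper206.BoxS.SphereSC
import Pool.Agent.Helper31.GZ.Brouwer

/-!
Elementary topology of spheres and of products of spheres.
-/

open Set Metric Module
open scoped unitInterval

set_option autoImplicit false

noncomputable section

namespace Pool.Agent.H472R3

/-- The identity of a sphere is not nullhomotopic (after helper31). -/
theorem sphere_not_null (d : ℕ) :
    ¬ (ContinuousMap.id (sphere (0 : EuclideanSpace ℝ (Fin d)) 1)).Nullhomotopic := by
  rintro ⟨c, ⟨F⟩⟩
  set t : EuclideanSpace ℝ (Fin d) → unitInterval :=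
    fun x => projIcc 0 1 zero_le_one (2 - 2 * ‖x‖) with ht
  have htc : Continuous t := continuous_projIcc.comp (by fun_prop)
  have hn : ∀ x : EuclideanSpace ℝ (Fin d), x ≠ 0 →
      ‖x‖⁻¹ • x ∈ sphere (0 : EuclideanSpace ℝ (Fin d)) 1 := by
    intro x hx
    rw [mem_sphere_zero_iff_norm, norm_smul, norm_inv, norm_norm,
      inv_mul_cancel₀ (norm_ne_zero_iff.2 hx)]
  set f : EuclideanSpace ℝ (Fin d) → EuclideanSpace ℝ (Fin d) := fun x => if h : x ≠ 0 then
    (max ‖x‖ 1) • ((F (t x, ⟨‖x‖⁻¹ • x, hn x h⟩) : sphere (0 : EuclideanSpace ℝ (Fin d)) 1) :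
      EuclideanSpace ℝ (Fin d)) else (c : EuclideanSpace ℝ (Fin d)) with hf
  have hf0 : ∀ x : EuclideanSpace ℝ (Fin d), ‖x‖ < 1 / 2 → f x = c := by
    intro x hx
    by_cases h : x ≠ 0
    · have h1 : t x = 1 := by
        simp only [ht]
        rw [projIcc_of_right_le _ (by linarith)]
        rfl
      simp only [hf, dif_pos h, h1]
      have h2 : F (1, (⟨‖x‖⁻¹ • x, hn x h⟩ : sphere (0 : EuclideanSpace ℝ (Fin d)) 1)) = c := by
        rw [F.apply_one]; rfl
      rw [h2, max_eq_right (by linarith), one_smul]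
    · simp only [hf, dif_neg h]
  have hfc : Continuous f := by
    rw [continuous_iff_continuousAt]
    intro x
    by_cases hx : x = 0
    · subst hx
      refine (continuousAt_const : ContinuousAt (fun _ : EuclideanSpace ℝ (Fin d) =>
        (c : EuclideanSpace ℝ (Fin d))) 0).congr ?_
      filter_upwards [ball_mem_nhds (0 : EuclideanSpace ℝ (Fin d))
        (by norm_num : (0 : ℝ) < 1 / 2)] with y hy
      exact (hf0 y (by simpa using hy)).symm
    · have hon : ContinuousOn f {y | y ≠ 0} := by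
        rw [continuousOn_iff_continuous_domRestrict]
        have : ({y : EuclideanSpace ℝ (Fin d) | y ≠ 0}).domRestrict f =
            fun y : {y : EuclideanSpace ℝ (Fin d) | y ≠ 0} =>
            (max ‖(y : EuclideanSpace ℝ (Fin d))‖ 1) • ((F (t y,
              ⟨‖(y : EuclideanSpace ℝ (Fin d))‖⁻¹ • (y : EuclideanSpace ℝ (Fin d)), hn y y.2⟩) :
              sphere (0 : EuclideanSpace ℝ (Fin d)) 1) : EuclideanSpace ℝ (Fin d)) := by
          funext y
          exact dif_pos y.2
        rw [this]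
        have hnc : Continuous fun y : {y : EuclideanSpace ℝ (Fin d) | y ≠ 0} =>
            (⟨‖(y : EuclideanSpace ℝ (Fin d))‖⁻¹ • (y : EuclideanSpace ℝ (Fin d)), hn y y.2⟩ :
              sphere (0 : EuclideanSpace ℝ (Fin d)) 1) := by
          refine Continuous.subtype_mk ?_ _
          exact (continuous_subtype_val.norm.inv₀ (fun y => norm_ne_zero_iff.2 y.2)).smul
            continuous_subtype_val
        exact ((continuous_subtype_val.norm).max continuous_const).smul
          (continuous_subtype_val.comp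
            (F.continuous.comp ((htc.comp continuous_subtype_val).prodMk hnc)))
      exact (hon x hx).continuousAt (isOpen_ne.mem_nhds hx)
  obtain ⟨x, hx⟩ := Pool.Agent.Helper31.GZ.Brouwer.exists_zero d f hfc 1 one_pos (by
    intro x hx
    have h : x ≠ 0 := by
      rintro rfl; norm_num at hx
    have h1 : t x = 0 := by
      simp only [ht]
      rw [projIcc_of_le_left _ (by linarith)]
      rfl
    simp only [hf, dif_pos h, h1]
    have h2 : F (0, (⟨‖x‖⁻¹ • x, hn x h⟩ : sphere (0 : EuclideanSpace ℝ (Fin d)) 1)) =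
        (⟨‖x‖⁻¹ • x, hn x h⟩ : sphere (0 : EuclideanSpace ℝ (Fin d)) 1) := by
      rw [F.apply_zero]; rfl
    rw [h2, max_eq_left hx, smul_smul, mul_inv_cancel₀ (by linarith), one_smul])
  by_cases h : x ≠ 0
  · simp only [hf, dif_pos h] at hx
    have h1 : ‖((F (t x, (⟨‖x‖⁻¹ • x, hn x h⟩ : sphere (0 : EuclideanSpace ℝ (Fin d)) 1)) :
        sphere (0 : EuclideanSpace ℝ (Fin d)) 1) : EuclideanSpace ℝ (Fin d))‖ = 1 :=
      mem_sphere_zero_iff_norm.1
        (F (t x, (⟨‖x‖⁻¹ • x, hn x h⟩ : sphere (0 : EuclideanSpace ℝ (Fin d)) 1)) :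
          sphere (0 : EuclideanSpace ℝ (Fin d)) 1).2
    have h2 := congrArg norm hx
    rw [norm_smul, h1, norm_zero, mul_one, norm_eq_zero] at h2
    have := le_max_right ‖x‖ 1
    rw [h2] at this
    linarith
  · simp only [hf, dif_neg h] at hx
    have h1 : ‖(c : EuclideanSpace ℝ (Fin d))‖ = 1 := mem_sphere_zero_iff_norm.1 c.2
    rw [hx, norm_zero] at h1
    norm_num at h1

/-- A map into a sphere that misses a point is nullhomotopic. -/
theorem null_of_missed {V : Type*} [NormedAddCommGroup V] [InnerProductSpace ℝ V]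
    [FiniteDimensional ℝ V] {X : Type*} [TopologicalSpace X] (f : C(X, sphere (0 : V) 1))
    (w : sphere (0 : V) 1) (hw : ∀ x, f x ≠ w) : f.Nullhomotopic := by
  have hw1 : ‖(w : V)‖ = 1 := mem_sphere_zero_iff_norm.1 w.2
  have hc := Pool.Agent.Helper206.BoxS.Sph.compl_contractible hw1
  have hww : (⟨(w : V), by simp [hw1]⟩ : sphere (0 : V) 1) = w := rfl
  let U : Set (sphere (0 : V) 1) := {w}ᶜ
  have hU : ContractibleSpace U := hc
  let f' : C(X, U) := ⟨fun x => ⟨f x, hw x⟩, by fun_prop⟩
  have h1 : (ContinuousMap.id U).Nullhomotopic := id_nullhomotopic U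
  have h2 : f'.Nullhomotopic := by
    have := h1.comp_left f'
    simpa using this
  have h3 := h2.comp_right (⟨Subtype.val, continuous_subtype_val⟩ : C(U, sphere (0 : V) 1))
  exact h3

/-- The product of a sphere with a space that has two points is not homeomorphic to a sphere. -/
theorem prod_not_sphere (d : ℕ) {Y : Type*} [TopologicalSpace Y] [Nontrivial Y]
    {V : Type*} [NormedAddCommGroup V] [InnerProductSpace ℝ V]
    [FiniteDimensional ℝ V] :
    IsEmpty ((sphere (0 : EuclideanSpace ℝ (Fin (d + 1))) 1 × Y) ≃ₜ sphere (0 : V) 1) := by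
  refine ⟨fun φ => ?_⟩
  obtain ⟨p0, p1, hp⟩ := exists_pair_ne Y
  have hx0 : (sphere (0 : EuclideanSpace ℝ (Fin (d + 1))) 1).Nonempty :=
    NormedSpace.sphere_nonempty.2 zero_le_one
  obtain ⟨x0, hx0⟩ := hx0
  let q : sphere (0 : EuclideanSpace ℝ (Fin (d + 1))) 1 × Y := (⟨x0, hx0⟩, p1)
  let i : C(sphere (0 : EuclideanSpace ℝ (Fin (d + 1))) 1,
    sphere (0 : EuclideanSpace ℝ (Fin (d + 1))) 1 × Y) := ⟨fun x => (x, p0), by fun_prop⟩
  let φ' : C(sphere (0 : EuclideanSpace ℝ (Fin (d + 1))) 1 × Y, sphere (0 : V) 1) :=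
    ⟨φ, φ.continuous⟩
  let ψ' : C(sphere (0 : V) 1, sphere (0 : EuclideanSpace ℝ (Fin (d + 1))) 1 × Y) :=
    ⟨φ.symm, φ.symm.continuous⟩
  have h1 : (φ'.comp i).Nullhomotopic := by
    apply null_of_missed _ (φ q)
    intro x hx
    have := φ.injective hx
    exact hp (congrArg Prod.snd this)
  let r : C(sphere (0 : V) 1, sphere (0 : EuclideanSpace ℝ (Fin (d + 1))) 1) :=
    (⟨Prod.fst, continuous_fst⟩ : C(sphere (0 : EuclideanSpace ℝ (Fin (d + 1))) 1 × Y, _)).comp ψ'
  have h2 := h1.comp_right r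
  apply sphere_not_null (d + 1)
  have h3 : r.comp (φ'.comp i) = ContinuousMap.id _ := by
    ext1 x
    change (φ.symm (φ (x, p0))).1 = x
    rw [φ.symm_apply_apply]
  rw [← h3]
  exact h2

/-- The product of two simply connected spaces is simply connected. -/
theorem simplyConnected_prod (X Y : Type*) [TopologicalSpace X] [TopologicalSpace Y]
    [SimplyConnectedSpace X] [SimplyConnectedSpace Y] : SimplyConnectedSpace (X × Y) := by
  rw [simply_connected_iff_paths_homotopic]
  refine ⟨inferInstance, fun a b => ⟨fun p q => ?_⟩⟩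
  obtain ⟨a1, a2⟩ := a
  obtain ⟨b1, b2⟩ := b
  rw [← Path.Homotopic.prod_projLeft_projRight p, ← Path.Homotopic.prod_projLeft_projRight q]
  congr 1
  · exact Subsingleton.elim _ _
  · exact Subsingleton.elim _ _

theorem simplyConnected_sph (n : ℕ) (hn : 2 ≤ n) :
    SimplyConnectedSpace (sphere (0 : EuclideanSpace ℝ (Fin (n + 1))) 1) :=
  Pool.Agent.Helper206.BoxS.Sph.simplyConnected_sphere (by simp; omega)

end Pool.Agent.H472R3
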